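import Pool.Agent.N65.TL.Chart
set_option autoImplicit false

/-!
The monomial charts `t_j = ∏_{l ≤ j} y_l ^ (M ^ (j - l))`: every polynomial whose exponents are
smaller than `M` becomes a monomial up to a function without zeros.
-/

namespace Pool.Agent.U374.Tr

open Pool.Agent.TH577.UA (mmon contDiff_mmon mmon_add mmon_zero_ne mmon_zero_eq)

open Pool.Agent.N65.TL (mmon_prod)

section exps

variable {d : ℕ}

/-- The exponents of the chart. -/
def ex (M j l : ℕ) : ℕ := if l ≤ j then M ^ (j - l) else 0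

theorem ex_self (M j : ℕ) : ex M j j = 1 := by
  unfold ex
  rw [if_pos le_rfl, Nat.sub_self, pow_zero]

theorem ex_lt {M j l : ℕ} (h : j < l) : ex M j l = 0 := if_neg (not_le.2 h)

/-- The exponents of the monomial with the exponents `m` in the chart. -/
def SS (M : ℕ) (m : Fin (d + 1) → ℕ) (l : ℕ) : ℕ := ∑ j : Fin (d + 1), m j * ex M j l

theorem SS_step (M : ℕ) (m : Fin (d + 1) → ℕ) (l : Fin (d + 1)) :
    SS M m l = m l + M * SS M m (l + 1) := by
  unfold SS
  have h : m l = ∑ j, if j = l then m j else 0 := by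
    rw [Finset.sum_ite_eq' Finset.univ l m, if_pos (Finset.mem_univ l)]
  rw [Finset.mul_sum, h, ← Finset.sum_add_distrib]
  refine Finset.sum_congr rfl fun j _ => ?_
  unfold ex
  by_cases h1 : j = l
  · subst h1
    rw [if_pos le_rfl, Nat.sub_self, pow_zero, if_pos rfl, if_neg (by omega)]
    omega
  · have h1' : (j : ℕ) ≠ l := fun h => h1 (Fin.ext h)
    rw [if_neg h1, zero_add]
    by_cases h2 : (l : ℕ) ≤ j
    · have h3 : (l : ℕ) + 1 ≤ j := by omega
      have h4 : (j : ℕ) - l = ((j : ℕ) - (l + 1)) + 1 := by omega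
      rw [if_pos h2, if_pos h3, h4, pow_succ]
      ring
    · rw [if_neg h2, if_neg (by omega)]
      ring

theorem SS_top (M : ℕ) (m : Fin (d + 1) → ℕ) : SS M m (d + 1) = 0 := by
  unfold SS
  refine Finset.sum_eq_zero fun j _ => ?_
  rw [ex_lt (by have := j.isLt; omega), mul_zero]

theorem SS_mono {M : ℕ} {m m' : Fin (d + 1) → ℕ} (hm' : ∀ j, m' j < M)
    (h : SS M m 0 ≤ SS M m' 0) : ∀ l, l ≤ d + 1 → SS M m l ≤ SS M m' l := by
  intro l
  induction l with
  | zero => exact fun _ => h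
  | succ l ih =>
    intro hl
    have h1 := ih (by omega)
    have h2 := SS_step M m ⟨l, by omega⟩
    have h3 := SS_step M m' ⟨l, by omega⟩
    have h4 := hm' ⟨l, by omega⟩
    simp only at h2 h3
    by_contra hcon
    push Not at hcon
    have h5 : M * (SS M m' (l + 1) + 1) ≤ M * SS M m (l + 1) := Nat.mul_le_mul_left M hcon
    rw [mul_add, mul_one] at h5
    omega

theorem SS_inj {M : ℕ} {m m' : Fin (d + 1) → ℕ} (hm : ∀ j, m j < M) (hm' : ∀ j, m' j < M)
    (h : SS M m 0 = SS M m' 0) : m = m' := by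
  have h1 : ∀ l, l ≤ d + 1 → SS M m l = SS M m' l := fun l hl =>
    le_antisymm (SS_mono hm' h.le l hl) (SS_mono hm h.ge l hl)
  funext l
  have h2 := SS_step M m l
  have h3 := SS_step M m' l
  rw [h1 l (by have := l.isLt; omega), h1 (l + 1) (by have := l.isLt; omega)] at h2
  omega

theorem SS_eq_zero {M : ℕ} {m : Fin (d + 1) → ℕ} {j : ℕ} (h : ∀ i : Fin (d + 1), j ≤ i → m i = 0)
    {l : ℕ} (hl : j ≤ l) : SS M m l = 0 := by
  unfold SS
  refine Finset.sum_eq_zero fun i _ => ?_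
  by_cases h1 : j ≤ i
  · rw [h i h1, zero_mul]
  · rw [ex_lt (by omega), mul_zero]

/-- The point `t` of the chart. -/
noncomputable def tm (M : ℕ) (y : (Fin d → ℂ) × ℂ) (j : Fin (d + 1)) : ℂ :=
  mmon (fun l : Fin (d + 1) => ex M j l) y

theorem contDiff_tm (M : ℕ) : ContDiff ℂ 2 (tm (d := d) M) :=
  contDiff_pi.2 fun _ => contDiff_mmon _

variable {K : Type*} [Field K]

theorem eval_tm (σ : K →+* ℂ) (M : ℕ) (p : MvPolynomial (Fin (d + 1)) K)
    (y : (Fin d → ℂ) × ℂ) :
    MvPolynomial.eval₂ σ (tm M y) p = ∑ m ∈ p.support, σ (p.coeff m) *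
      mmon (fun l : Fin (d + 1) => SS M m l) y := by
  rw [MvPolynomial.eval₂_eq']
  refine Finset.sum_congr rfl fun m _ => ?_
  congr 1
  exact mmon_prod (fun (j l : Fin (d + 1)) => ex M j l) (fun j => m j) y

theorem exists_fac (σ : K →+* ℂ) {M : ℕ} {p : MvPolynomial (Fin (d + 1)) K} (hp : p ≠ 0)
    (hM : ∀ m ∈ p.support, ∀ j, m j < M) :
    ∃ m0 ∈ p.support, (∀ m ∈ p.support, ∀ l : Fin (d + 1), SS M m0 l ≤ SS M m l) ∧
      ∃ h : (Fin d → ℂ) × ℂ → ℂ, ContDiff ℂ 2 h ∧ h 0 ≠ 0 ∧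
        ∀ y, MvPolynomial.eval₂ σ (tm M y) p = mmon (fun l : Fin (d + 1) => SS M m0 l) y * h y := by
  classical
  obtain ⟨m0, hm0, hmin⟩ := Finset.exists_min_image p.support (fun m => SS M m 0)
    (MvPolynomial.support_nonempty.2 hp)
  have hle : ∀ m ∈ p.support, ∀ l : Fin (d + 1), SS M m0 l ≤ SS M m l := fun m hm l =>
    SS_mono (hM m hm) (hmin m hm) l l.isLt.le
  refine ⟨m0, hm0, hle, fun y => ∑ m ∈ p.support, σ (p.coeff m) *
    mmon (fun l : Fin (d + 1) => SS M m l - SS M m0 l) y, ?_, ?_, fun y => ?_⟩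
  · exact ContDiff.sum fun m _ => contDiff_const.mul (contDiff_mmon _)
  · show ∑ m ∈ p.support, σ (p.coeff m) *
      mmon (fun l : Fin (d + 1) => SS M m l - SS M m0 l) 0 ≠ 0
    rw [Finset.sum_eq_single m0]
    · rw [mmon_zero_eq (fun j => Nat.sub_self _), mul_one]
      exact (map_ne_zero σ).2 (MvPolynomial.mem_support_iff.1 hm0)
    · intro m hm hne
      rw [mmon_zero_ne, mul_zero]
      refine ⟨0, ?_⟩
      show SS M m 0 - SS M m0 0 ≠ 0
      have h1 : SS M m0 0 ≤ SS M m 0 := hmin m hm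
      have h2 : SS M m0 0 ≠ SS M m 0 := fun h =>
        hne (DFunLike.coe_injective (SS_inj (hM m hm) (hM m0 hm0) h.symm))
      omega
    · intro h
      exact absurd hm0 h
  · rw [eval_tm, Finset.mul_sum]
    refine Finset.sum_congr rfl fun m hm => ?_
    have h1 : mmon (fun l : Fin (d + 1) => SS M m l) y =
        mmon (fun l : Fin (d + 1) => SS M m0 l) y *
          mmon (fun l : Fin (d + 1) => SS M m l - SS M m0 l) y := by
      rw [← mmon_add]
      congr 1
      funext l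
      have := hle m hm l
      omega
    rw [h1]
    ring

end exps

end Pool.Agent.U374.Tr
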