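import Pool.Agent.U374.Tr.Arr
set_option autoImplicit false

/-!
The classes with coefficients in `Adm` are unramified.
-/

namespace Pool.Agent.U374.Tr

open scoped WithZero

open Pool.Agent.TH826.MK

open Pool.Agent.N65.TL

section symb

variable {L : Type*} [Field L] {N : ℕ}

/-- Symbols with congruent entries. -/
theorem symb_congr (v : Valuation L ℤᵐ⁰) (a b : Fin N → Lˣ)
    (h : ∀ l, v (((a l / b l : Lˣ) : L) - 1) < 1) : symb a - symb b ∈ unitPart v N := by
  classical
  have key : ∀ t : Finset (Fin N), symb (fun l => if l ∈ t then a l else b l) - symb b ∈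
      unitPart v N := by
    intro t
    induction t using Finset.induction_on with
    | empty =>
      simp only [Finset.notMem_empty, if_false, sub_self]
      exact Submodule.zero_mem _
    | insert p t hp ih =>
      set m : Fin N → Lˣ := fun l => if l ∈ t then a l else b l with hm
      have hmp : m p = b p := by rw [hm]; exact if_neg hp
      have e1 : (fun l => if l ∈ insert p t then a l else b l) =
          Function.update m p (b p * (a p / b p)) := by
        funext l
        by_cases hl : l = p
        · subst hl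
          rw [Function.update_self, mul_div_cancel, if_pos (Finset.mem_insert_self _ _)]
        · rw [Function.update_of_ne hl, hm]
          simp only [Finset.mem_insert, hl, false_or]
      rw [e1, symb_update_mul, ← hmp, Function.update_eq_self, hmp]
      have h1 : symb (Function.update m p (a p / b p)) ∈ unitPart v N := by
        refine mem_unitPart_of_oneUnit' v p _ ?_
        rw [Function.update_self]
        exact h p
      have h2 : symb m + symb (Function.update m p (a p / b p)) - symb b =
          symb (Function.update m p (a p / b p)) + (symb m - symb b) := by abel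
      rw [h2]
      exact Submodule.add_mem _ h1 ih
  have h1 := key Finset.univ
  simp only [Finset.mem_univ, if_true] at h1
  exact h1

/-- Sums over classes. -/
theorem class_sum {V : Type*} [AddCommGroup V] [Module ℚ V] (U : Submodule ℚ V) {α : Type*}
    [DecidableEq α] (C : α → Finset α) (c : α → V) (n : α → ℚ) :
    ∀ (k : ℕ) (S : Finset α), S.card = k → (∀ x ∈ S, x ∈ C x) → (∀ x ∈ S, ∀ y ∈ C x, C y = C x) →
      (∀ x ∈ S, C x ⊆ S) → (∀ x ∈ S, ∀ y ∈ C x, c y - c x ∈ U) →
      (∀ x ∈ S, ∑ y ∈ C x, n y = 0) → ∑ x ∈ S, n x • c x ∈ U := by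
  intro k
  induction k using Nat.strong_induction_on with
  | _ k ih =>
    intro S hk h1 h2 h3 h4 h5
    rcases S.eq_empty_or_nonempty with rfl | ⟨x, hx⟩
    · rw [Finset.sum_empty]
      exact Submodule.zero_mem _
    · rw [← Finset.sum_sdiff (h3 x hx)]
      refine Submodule.add_mem _ ?_ ?_
      · refine ih (S \ C x).card ?_ (S \ C x) rfl
          (fun y hy => h1 y (Finset.mem_sdiff.1 hy).1)
          (fun y hy => h2 y (Finset.mem_sdiff.1 hy).1) (fun y hy z hz => ?_)
          (fun y hy => h4 y (Finset.mem_sdiff.1 hy).1)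
          (fun y hy => h5 y (Finset.mem_sdiff.1 hy).1)
        · rw [← hk]
          refine Finset.card_lt_card ⟨Finset.sdiff_subset, fun hsub => ?_⟩
          exact (Finset.mem_sdiff.1 (hsub hx)).2 (h1 x hx)
        · obtain ⟨hyS, hyC⟩ := Finset.mem_sdiff.1 hy
          refine Finset.mem_sdiff.2 ⟨h3 y hyS hz, fun hzx => hyC ?_⟩
          rw [← h2 x hx z hzx, h2 y hyS z hz]
          exact h1 y hyS
      · have e : ∑ y ∈ C x, n y • c y = ∑ y ∈ C x, n y • (c y - c x) := by
          simp only [smul_sub]
          rw [Finset.sum_sub_distrib, ← Finset.sum_smul, h5 x hx, zero_smul, sub_zero]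
        rw [e]
        exact Submodule.sum_mem _ fun y hy => Submodule.smul_mem _ _ (h4 x hx y hy)

end symb

section val

variable {L : Type*} [Field L]

theorem val_mul_sub {v : Valuation L ℤᵐ⁰} {x y x' y' : L} (hx : v x ≤ 1) (hy' : v y' ≤ 1)
    (h : v (x - y) < 1) (h' : v (x' - y') < 1) : v (x * x' - y * y') < 1 := by
  have e : x * x' - y * y' = x * (x' - y') + (x - y) * y' := by ring
  rw [e]
  refine (v.map_add _ _).trans_lt (max_lt ?_ ?_)
  · rw [map_mul]
    exact (mul_le_of_le_one_left' hx).trans_lt h'
  · rw [map_mul]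
    exact (mul_le_of_le_one_right' hy').trans_lt h

theorem val_pow_sub {v : Valuation L ℤᵐ⁰} {x y : L} (hx : v x ≤ 1) (hy : v y ≤ 1)
    (h : v (x - y) < 1) (k : ℕ) : v (x ^ k - y ^ k) < 1 := by
  induction k with
  | zero => simp
  | succ k ih =>
    rw [pow_succ, pow_succ]
    refine val_mul_sub ?_ hy ih h
    rw [map_pow]
    exact pow_le_one' hx _

theorem val_prod_sub {v : Valuation L ℤᵐ⁰} {ι : Type*} (s : Finset ι) {x y : ι → L}
    (hx : ∀ i, v (x i) ≤ 1) (hy : ∀ i, v (y i) ≤ 1) (h : ∀ i, v (x i - y i) < 1) :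
    v (∏ i ∈ s, x i - ∏ i ∈ s, y i) < 1 := by
  classical
  induction s using Finset.induction_on with
  | empty => simp
  | insert i s hi ih =>
    rw [Finset.prod_insert hi, Finset.prod_insert hi]
    refine val_mul_sub (hx i) ?_ (h i) ih
    rw [map_prod]
    exact Finset.prod_le_one' fun j _ => hy j

variable {K : Type*} [Field K] {m : ℕ}

theorem eq_sum (F : MvPolynomial (Fin m) K →+* L) (p : MvPolynomial (Fin m) K) :
    F p = ∑ k ∈ p.support, F (MvPolynomial.C (p.coeff k)) *
      ∏ j, F (MvPolynomial.X j) ^ k j := by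
  have h1 : F p = MvPolynomial.eval₂ (F.comp MvPolynomial.C) (fun j => F (MvPolynomial.X j)) p := by
    have h2 : F = MvPolynomial.eval₂Hom (F.comp MvPolynomial.C)
        (fun j => F (MvPolynomial.X j)) := by
      refine MvPolynomial.ringHom_ext (fun x => ?_) fun j => ?_
      · simp only [MvPolynomial.coe_eval₂Hom, MvPolynomial.eval₂_C]
        rfl
      · simp only [MvPolynomial.coe_eval₂Hom, MvPolynomial.eval₂_X]
    exact congrArg (fun F : MvPolynomial (Fin m) K →+* L => F p) h2
  rw [h1, MvPolynomial.eval₂_eq']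
  rfl

/-- The values of a polynomial with integral coefficients at congruent points. -/
theorem val_sub_lt (F F' : MvPolynomial (Fin m) K →+* L) (v : Valuation L ℤᵐ⁰)
    (hC : ∀ x, F (MvPolynomial.C x) = F' (MvPolynomial.C x)) {p : MvPolynomial (Fin m) K}
    (hp : ∀ k, IsIntegral ℤ (p.coeff k)) (hx : ∀ j, v (F (MvPolynomial.X j)) ≤ 1)
    (hx' : ∀ j, v (F' (MvPolynomial.X j)) ≤ 1)
    (h : ∀ j, v (F (MvPolynomial.X j) - F' (MvPolynomial.X j)) < 1) : v (F p - F' p) < 1 := by
  rw [eq_sum F, eq_sum F', ← Finset.sum_sub_distrib]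
  refine Valuation.map_sum_lt v one_ne_zero fun k _ => ?_
  rw [← hC, ← mul_sub, map_mul]
  have h1 : v (F (MvPolynomial.C (p.coeff k))) ≤ 1 :=
    Pool.Agent.TH826.MK.val_le_one_of_integral v
      (map_isIntegral_int (F.comp MvPolynomial.C) (hp k))
  refine (mul_le_of_le_one_left' h1).trans_lt (val_prod_sub _ (fun j => ?_) (fun j => ?_)
    fun j => val_pow_sub (hx j) (hx' j) (h j) _)
  · rw [map_pow]
    exact pow_le_one' (hx j) _
  · rw [map_pow]
    exact pow_le_one' (hx' j) _

end val

namespace Arr

variable {K : Type*} [Field K] {s d : ℕ} {A : Arr K s d}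

theorem near_refl (j : Fin (d + 1)) (T : Tup A.r) : A.Near j T T := ⟨fun _ _ => rfl, fun _ _ => rfl⟩

theorem near_iff {j : Fin (d + 1)} {T T' : Tup A.r} (h : A.Near j T T') (T'' : Tup A.r) :
    A.Near j T' T'' ↔ A.Near j T T'' := by
  have hj : T' j = T j := h.1 j le_rfl
  unfold Near
  rw [hj]
  constructor
  · rintro ⟨h1, h2⟩
    exact ⟨fun l hl => (h1 l hl).trans (h.1 l hl), fun l hl => (h2 l hl).trans (h.2 l hl)⟩
  · rintro ⟨h1, h2⟩
    exact ⟨fun l hl => (h1 l hl).trans (h.1 l hl).symm, fun l hl =>
      (h2 l hl).trans (h.2 l hl).symm⟩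

/-- The largest element of a set, or zero. -/
noncomputable def tp (B : Finset (Fin (d + 1))) : Fin (d + 1) :=
  if h : B.Nonempty then B.max' h else 0

theorem tp_mem {B : Finset (Fin (d + 1))} (h : B.Nonempty) : tp B ∈ B := by
  unfold tp
  rw [dif_pos h]
  exact Finset.max'_mem _ _

theorem le_tp {B : Finset (Fin (d + 1))} {j : Fin (d + 1)} (h : j ∈ B) : j ≤ tp B := by
  unfold tp
  rw [dif_pos ⟨j, h⟩]
  exact Finset.le_max' _ _ h

theorem cl_mem_unitPart (hA : A.Admissible) {lam : K} (hlam : IsIntegral ℤ lam) {n : Tup A.r → ℚ}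
    (hn : n ∈ A.Adm) {L : Type*} [Field L] (f : A.Open lam →+* L) (v : Valuation L ℤᵐ⁰) :
    KQ.map (s + (d + 1) + 1) f (A.cl lam n) ∈ unitPart v (s + (d + 1) + 1) := by
  classical
  obtain ⟨hn1, hn2⟩ := hn
  set F : MvPolynomial (Fin (d + 1)) K →+* L := f.comp (qx A.W (A.Phi lam) (A.Psi lam)) with hF
  have hc : ∀ x : K, IsIntegral ℤ x → v (F (MvPolynomial.C x)) ≤ 1 := fun x hx =>
    Pool.Agent.TH826.MK.val_le_one_of_integral v (map_isIntegral_int (F.comp MvPolynomial.C) hx)
  -- the entries
  set z : Fin (s + 1) → Lˣ := fun i => Units.map (f : A.Open lam →* L) (A.z lam i) with hz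
  set b : A.Ix → Lˣ := fun e => Units.map (f : A.Open lam →* L) (A.L lam e) with hb
  have hbv : ∀ e, (b e : L) = F (A.P e) := fun e => rfl
  set a : Tup A.r → Fin (s + (d + 1) + 1) → Lˣ := fun T l =>
    Sum.elim z (fun j => b ⟨j, T j⟩) ((esum s d).symm l) with ha
  have hmap : KQ.map (s + (d + 1) + 1) f (A.cl lam n) = ∑ T, n T • symb (a T) := by
    unfold cl
    rw [map_sum]
    refine Finset.sum_congr rfl fun T _ => ?_
    rw [map_smul]
    congr 1
    unfold sym
    rw [KQ.map_symb]
    congr 1
    funext l
    rw [ha]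
    obtain ⟨t, rfl⟩ := (esum s d).surjective l
    simp only [Equiv.symm_apply_apply]
    rcases t with i | k
    · rfl
    · rfl
  rw [hmap]
  have haz : ∀ T i, a T (esum s d (Sum.inl i)) = z i := by
    intro T i
    simp only [ha]
    rw [Equiv.symm_apply_apply, Sum.elim_inl]
  have hab : ∀ T j, a T (esum s d (Sum.inr j)) = b ⟨j, T j⟩ := by
    intro T j
    simp only [ha]
    rw [Equiv.symm_apply_apply, Sum.elim_inr]
  have hPsub : ∀ j i i', F (A.P ⟨j, i⟩) - F (A.P ⟨j, i'⟩) = F (A.φ j i' - A.φ j i) := by
    intro j i i'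
    unfold P
    rw [map_sub, map_sub, map_sub]
    ring
  -- congruent symbols
  have hcongr : ∀ T T' : Tup A.r, (∀ j, T j = T' j ∨
      v (F (A.φ j (T' j) - A.φ j (T j))) < v (F (A.P ⟨j, T' j⟩))) →
      symb (a T) - symb (a T') ∈ unitPart v (s + (d + 1) + 1) := by
    intro T T' h
    refine symb_congr v _ _ fun l => ?_
    obtain ⟨t, rfl⟩ := (esum s d).surjective l
    rcases t with i | j
    · rw [haz, haz, div_self', Units.val_one, sub_self, map_zero]
      exact zero_lt_one
    · rw [hab, hab]
      rcases h j with h1 | h1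
      · rw [h1, div_self', Units.val_one, sub_self, map_zero]
        exact zero_lt_one
      · have h0 : (b ⟨j, T' j⟩ : L) ≠ 0 := (b ⟨j, T' j⟩).ne_zero
        rw [Units.val_div_eq_div_val, div_sub_one h0, map_div₀, hbv, hbv, hPsub]
        have h2 : 0 < v (F (A.P ⟨j, T' j⟩)) := zero_lt_iff.2 ((v.ne_zero_iff).2 h0)
        rwa [div_lt_one₀ h2]
  by_cases hB : ∃ k, 1 < v (F (MvPolynomial.X k))
  · -- a pole
    obtain ⟨j, hj, hmin⟩ := Finset.exists_min_image
      (Finset.univ.filter fun k => 1 < v (F (MvPolynomial.X k))) (fun k => (k : ℕ))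
      (by
        obtain ⟨k1, hk1⟩ := hB
        exact ⟨k1, Finset.mem_filter.2 ⟨Finset.mem_univ _, hk1⟩⟩)
    have hjv : 1 < v (F (MvPolynomial.X j)) := (Finset.mem_filter.1 hj).2
    have hlow : ∀ l, l < j → v (F (MvPolynomial.X l)) ≤ 1 := by
      intro l hl
      by_contra hcon
      have h1 := hmin l (Finset.mem_filter.2 ⟨Finset.mem_univ _, not_le.1 hcon⟩)
      have h2 : (l : ℕ) < j := hl
      omega
    have hφv : ∀ i, v (F (A.φ j i)) ≤ 1 := fun i =>
      val_le F v (hA.phi_int j i) fun l hl => hlow l (hA.phi_vars j i l hl)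
    refine class_sum (unitPart v (s + (d + 1) + 1))
      (fun x => Finset.univ.filter fun y : Tup A.r => ∀ l, l ≠ j → y l = x l)
      (fun T => symb (a T)) n _ Finset.univ rfl (fun x _ => ?_) (fun x _ y hy => ?_)
      (fun x _ => Finset.subset_univ _) (fun x _ y hy => ?_) (fun x _ => ?_)
    · exact Finset.mem_filter.2 ⟨Finset.mem_univ _, fun _ _ => rfl⟩
    · have hy' := (Finset.mem_filter.1 hy).2
      ext w
      simp only [Finset.mem_filter, Finset.mem_univ, true_and]
      constructor
      · exact fun h l hl => (h l hl).trans (hy' l hl)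
      · exact fun h l hl => (h l hl).trans (hy' l hl).symm
    · have hy' := (Finset.mem_filter.1 hy).2
      refine hcongr y x fun l => ?_
      by_cases hl : l = j
      · subst hl
        refine Or.inr ?_
        have h1 : v (F (A.P ⟨l, x l⟩)) = v (F (MvPolynomial.X l)) := by
          unfold P
          rw [map_sub]
          exact Valuation.map_sub_eq_of_lt_left v ((hφv _).trans_lt hjv)
        rw [h1, map_sub]
        exact ((v.map_sub _ _).trans (max_le (hφv _) (hφv _))).trans_lt hjv
      · exact Or.inl (hy' l hl)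
    · refine sum_invariant (hn1 j) _ fun T hT i => ?_
      refine Finset.mem_filter.2 ⟨Finset.mem_univ _, fun l hl => ?_⟩
      rw [Function.update_of_ne hl]
      exact (Finset.mem_filter.1 hT).2 l hl
  · push Not at hB
    have hφv : ∀ j i, v (F (A.φ j i)) ≤ 1 := fun j i => val_le F v (hA.phi_int j i) fun l _ => hB l
    have hP : ∀ e, v (F (A.P e)) ≤ 1 := by
      intro e
      unfold P
      rw [map_sub]
      exact (v.map_sub _ _).trans (max_le (hB _) (hφv _ _))
    have hgv : v (F A.g) ≤ 1 := val_le F v hA.g_int fun l _ => hB l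
    have hFP : v (f (qx A.W (A.Phi lam) (A.Psi lam) (A.Phi lam))) =
        v (F (MvPolynomial.C lam)) * (v (F A.g) *
          ∏ e : A.Ix, v (F (A.P e)) ^ (A.w e.1 e.2)) := by
      have h1 : f (qx A.W (A.Phi lam) (A.Psi lam) (A.Phi lam)) =
        F (MvPolynomial.C lam * (A.g * ∏ e : A.Ix, A.P e ^ A.w e.1 e.2)) := rfl
      rw [h1]
      simp only [map_mul, map_prod, map_pow]
    have hprodle : ∏ e : A.Ix, v (F (A.P e)) ^ (A.w e.1 e.2) ≤ 1 :=
      Finset.prod_le_one' fun e _ => pow_le_one' (hP e) _
    have hP1 : v (f (qx A.W (A.Phi lam) (A.Psi lam) (A.Phi lam))) ≤ 1 := by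
      rw [hFP]
      exact mul_le_one' (hc _ hlam) (mul_le_one' hgv hprodle)
    rcases tame_or_unit hA.interior hA.tame f v hP1 with h | ⟨hz1, hP2⟩
    · refine Submodule.sum_mem _ fun T _ => Submodule.smul_mem _ _ ?_
      exact h _ (a T) (fun i => esum s d (Sum.inl i)) (fun i j h =>
          Sum.inl_injective ((esum s d).injective h)) (haz T)
    · have hone := hFP.symm.trans hP2
      have hunit : ∀ e : A.Ix, A.w e.1 e.2 ≠ 0 → v (F (A.P e)) = 1 := by
        intro e he
        refine le_antisymm (hP e) ?_
        rw [← hone, ← Finset.mul_prod_erase _ _ (Finset.mem_univ e)]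
        have h1 : ∏ x ∈ Finset.univ.erase e, v (F (A.P x)) ^ (A.w x.1 x.2) ≤ 1 :=
          Finset.prod_le_one' fun j _ => pow_le_one' (hP j) _
        have h2 : v (F (A.P e)) ^ (A.w e.1 e.2) ≤ v (F (A.P e)) := by
          obtain ⟨k, hk⟩ := Nat.exists_eq_succ_of_ne_zero he
          rw [hk, pow_succ]
          exact mul_le_of_le_one_left' (pow_le_one' (hP e) _)
        calc v (F (MvPolynomial.C lam)) * (v (F A.g) * (v (F (A.P e)) ^ (A.w e.1 e.2) *
              ∏ x ∈ Finset.univ.erase e, v (F (A.P x)) ^ (A.w x.1 x.2)))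
            ≤ 1 * (1 * (v (F (A.P e)) * 1)) :=
              mul_le_mul' (hc _ hlam) (mul_le_mul' hgv (mul_le_mul' h2 h1))
          _ = v (F (A.P e)) := by rw [one_mul, one_mul, mul_one]
      -- the restriction to a graph
      have hres : ∀ (e : A.Ix) (p : MvPolynomial (Fin (d + 1)) K),
          (∀ k, IsIntegral ℤ (p.coeff k)) → v (F (A.P e)) < 1 → A.res e p = 0 →
            v (F p) < 1 := by
        intro e p hp he hr
        set F' : MvPolynomial (Fin (d + 1)) K →+* L := F.comp
          (MvPolynomial.bind₁ (Function.update MvPolynomial.X e.1 (A.φ e.1 e.2))).toRingHom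
          with hF'
        have hF'X : ∀ l, F' (MvPolynomial.X l) =
            F (Function.update MvPolynomial.X e.1 (A.φ e.1 e.2) l) := by
          intro l
          rw [hF']
          show F (MvPolynomial.bind₁ _ (MvPolynomial.X l)) = _
          rw [MvPolynomial.bind₁_X_right]
        have h1 : v (F p - F' p) < 1 := by
          refine val_sub_lt F F' v (fun x => ?_) hp hB (fun l => ?_) (fun l => ?_)
          · rw [hF']
            show F (MvPolynomial.C x) = F (MvPolynomial.bind₁ _ (MvPolynomial.C x))
            rw [MvPolynomial.bind₁_C_right]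
          · rw [hF'X]
            by_cases hl : l = e.1
            · subst hl
              rw [Function.update_self]
              exact hφv _ _
            · rw [Function.update_of_ne hl]
              exact hB l
          · rw [hF'X]
            by_cases hl : l = e.1
            · subst hl
              rw [Function.update_self, ← map_sub]
              exact he
            · rw [Function.update_of_ne hl, sub_self, map_zero]
              exact zero_lt_one
        have h2 : F' p = 0 := by
          show F (A.res e p) = 0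
          rw [hr, map_zero]
        rwa [h2, sub_zero] at h1
      have hsubint : ∀ j i i' k, IsIntegral ℤ ((A.φ j i - A.φ j i').coeff k) := by
        intro j i i' k
        rw [MvPolynomial.coeff_sub]
        exact (hA.phi_int j i k).sub (hA.phi_int j i' k)
      -- the levels at which the function `P_(j,T_j)` is not a unit
      set B : Tup A.r → Finset (Fin (d + 1)) := fun T =>
        Finset.univ.filter fun j => v (F (A.P ⟨j, T j⟩)) < 1 with hBdef
      have hmemB : ∀ T j, j ∈ B T ↔ v (F (A.P ⟨j, T j⟩)) < 1 := by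
        intro T j
        rw [hBdef]
        simp
      have hdiff : ∀ x : Tup A.r, (B x).Nonempty → ∀ y, A.Near (tp (B x)) x y →
          ∀ l, tp (B x) < l → v (F (A.P ⟨l, x l⟩)) = 1 ∧
            v (F (A.φ l (x l) - A.φ l (y l))) < 1 := by
        intro x hx y hy l hl
        refine ⟨le_antisymm (hP _) ?_, ?_⟩
        · by_contra hcon
          exact absurd (le_tp ((hmemB x l).2 (not_le.1 hcon))) (not_le.2 hl)
        · refine hres ⟨tp (B x), x (tp (B x))⟩ _ (hsubint _ _ _)
            ((hmemB _ _).1 (tp_mem hx)) ?_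
          have h1 := hy.2 l hl
          unfold res at h1 ⊢
          rw [map_sub, h1, sub_self]
      have hBeq : ∀ x : Tup A.r, (B x).Nonempty → ∀ y, A.Near (tp (B x)) x y → B y = B x := by
        intro x hx y hy
        ext l
        rw [hmemB, hmemB]
        rcases le_or_gt l (tp (B x)) with hl | hl
        · rw [hy.1 l hl]
        · obtain ⟨h1, h2⟩ := hdiff x hx y hy l hl
          have h3 : F (A.P ⟨l, y l⟩) = F (A.P ⟨l, x l⟩) + F (A.φ l (x l) - A.φ l (y l)) := by
            rw [← hPsub]
            ring
          have h4 : v (F (A.P ⟨l, y l⟩)) = 1 := by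
            rw [h3, ← h1]
            refine Valuation.map_add_eq_of_lt_left v ?_
            rw [h1]
            exact h2
          rw [h1, h4]
      rw [← Finset.sum_filter_add_sum_filter_not Finset.univ (fun T => (B T).Nonempty)]
      refine Submodule.add_mem _ ?_ ?_
      · refine class_sum (unitPart v (s + (d + 1) + 1))
          (fun x => Finset.univ.filter fun y : Tup A.r => A.Near (tp (B x)) x y)
          (fun T => symb (a T)) n _ _ rfl (fun x _ => ?_) (fun x hx y hy => ?_)
          (fun x hx y hy => ?_) (fun x hx y hy => ?_) (fun x hx => ?_)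
        · exact Finset.mem_filter.2 ⟨Finset.mem_univ _, near_refl _ _⟩
        · have hx' := (Finset.mem_filter.1 hx).2
          have hy' := (Finset.mem_filter.1 hy).2
          ext w
          simp only [Finset.mem_filter, Finset.mem_univ, true_and]
          rw [hBeq x hx' y hy']
          exact near_iff hy' w
        · have hx' := (Finset.mem_filter.1 hx).2
          have hy' := (Finset.mem_filter.1 hy).2
          refine Finset.mem_filter.2 ⟨Finset.mem_univ _, ?_⟩
          rw [hBeq x hx' y hy']
          exact hx'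
        · have hx' := (Finset.mem_filter.1 hx).2
          have hy' := (Finset.mem_filter.1 hy).2
          refine hcongr y x fun l => ?_
          rcases le_or_gt l (tp (B x)) with hl | hl
          · exact Or.inl (hy'.1 l hl)
          · obtain ⟨h1, h2⟩ := hdiff x hx' y hy' l hl
            exact Or.inr (by rwa [h1])
        · have hx' := (Finset.mem_filter.1 hx).2
          refine hn2 (tp (B x)) x ?_
          by_contra hw
          have h1 := (hmemB _ _).1 (tp_mem hx')
          rw [hunit ⟨tp (B x), x (tp (B x))⟩ hw] at h1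
          exact lt_irrefl _ h1
      · refine Submodule.sum_mem _ fun T hT => Submodule.smul_mem _ _ ?_
        have hT' := (Finset.mem_filter.1 hT).2
        refine Submodule.subset_span ⟨a T, fun l => ?_, rfl⟩
        obtain ⟨t, rfl⟩ := (esum s d).surjective l
        rcases t with i | k
        · rw [haz]
          exact hz1 i
        · rw [hab, hbv]
          refine le_antisymm (hP _) ?_
          by_contra hcon
          exact hT' ⟨k, (hmemB T k).2 (not_le.1 hcon)⟩

theorem unram.{u, v} {K : Type u} [Field K] {s d : ℕ} {A : Arr K s d} (hA : A.Admissible) {lam : K}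
    (hlam : IsIntegral ℤ lam) : Arr.Unram.{u, v} A lam := by
  intro n hn L _ f
  unfold Unramified
  simp only [Submodule.mem_iInf]
  intro v _
  exact cl_mem_unitPart hA hlam hn f v

end Arr

end Pool.Agent.U374.Tr
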