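import Pool.Agent.U374.Tr.Ring
import Pool.Agent.N65.TL.Fib
set_option autoImplicit false

/-!
The regulators of symbols on the hypersurfaces `W(z) = λ Φ_0(x)` for large `λ`, on tori near a point
with a chart in which `Φ_0` and the functions `P_e` are monomials up to functions without zeros.
-/

namespace Pool.Agent.U374.Tr

open Filter Topology

open Pool.Agent.TH826.MK

open Pool.Agent.TH826.SX (pairing_close det_ne_zero_near)

open Pool.Agent.TH577.UA (mmon exists_root good_pow lw_pow contDiff_mmon)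

open Pool.Agent.N65.TL

section mat

variable {s d : ℕ} {E : Type*} [Fintype E]

/-- the matrix of the orders of the entries -/
noncomputable def Rg (al v : Fin (s + 1) → ℤ) (i0 : Fin (s + 1)) (μ0 : Fin (d + 1) → ℕ)
    (μ : E → Fin (d + 1) → ℕ) (n : Fin (d + 1) → E → ℤ) :
    Matrix (Fin (s + (d + 1) + 1)) (Fin (s + (d + 1) + 1)) ℝ :=
  (Matrix.fromBlocks (zmat al v i0) (Matrix.of fun i j => (al i : ℝ) * μ0 j) 0
    (Matrix.of fun l j => ((dot al v : ℤ) : ℝ) *
      ∑ e, (n l e : ℝ) * μ e j)).submatrix (esum s d).symm (esum s d).symm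

/-- the leading coefficients of the regulators -/
noncomputable def leadG (μ : E → Fin (d + 1) → ℕ) (n : Fin (d + 1) → E → ℤ) : ℝ :=
  (Matrix.of fun l j => ∑ e, (n l e : ℝ) * μ e j : Matrix (Fin (d + 1)) (Fin (d + 1)) ℝ).det

theorem det_Rg (al v : Fin (s + 1) → ℤ) (i0 : Fin (s + 1)) (μ0 : Fin (d + 1) → ℕ)
    (μ : E → Fin (d + 1) → ℕ) (n : Fin (d + 1) → E → ℤ) :
    (Rg al v i0 μ0 μ n).det =
      (zmat al v i0).det * (((dot al v : ℤ) : ℝ) ^ (d + 1) * leadG μ n) := by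
  classical
  unfold Rg
  rw [Matrix.det_submatrix_equiv_self, Matrix.det_fromBlocks_zero₂₁]
  congr 1
  have h : (Matrix.of fun l j => ((dot al v : ℤ) : ℝ) *
      ∑ e, (n l e : ℝ) * μ e j : Matrix (Fin (d + 1)) (Fin (d + 1)) ℝ) =
        ((dot al v : ℤ) : ℝ) • (Matrix.of fun l j => ∑ e, (n l e : ℝ) * μ e j) := by
    ext l j
    rw [Matrix.smul_apply, Matrix.of_apply, Matrix.of_apply, smul_eq_mul]
  rw [h, Matrix.det_smul, Fintype.card_fin]
  rfl

variable {al v : Fin (s + 1) → ℤ} {i0 : Fin (s + 1)} {μ0 : Fin (d + 1) → ℕ}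
    {μ : E → Fin (d + 1) → ℕ} {n : Fin (d + 1) → E → ℤ}

theorem Rg_z_zero (i : Fin (s + 1)) :
    Rg al v i0 μ0 μ n (esum s d (Sum.inl i)) 0 = (al i : ℝ) / dot al v := by
  unfold Rg
  rw [Matrix.submatrix_apply, Equiv.symm_apply_apply, ← esum_zero (s := s) (d := d),
    Equiv.symm_apply_apply, Matrix.fromBlocks_apply₁₁]
  rfl

theorem Rg_z_succ (i : Fin (s + 1)) (j : Fin (s + (d + 1))) :
    Rg al v i0 μ0 μ n (esum s d (Sum.inl i)) j.succ =
      al i * (∑ i', if j = Fin.natAdd s i' then (μ0 i' : ℝ) else 0) +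
        ∑ l, if j = Fin.castAdd (d + 1) l then (bdir v i0 l i : ℝ) else 0 := by
  have hcn : ∀ (l : Fin s) (i' : Fin (d + 1)), Fin.castAdd (d + 1) l ≠ Fin.natAdd s i' := by
    intro l i' h
    have h1 := congrArg Fin.val h
    rw [Fin.val_castAdd, Fin.val_natAdd] at h1
    have := l.isLt
    omega
  unfold Rg
  rw [Matrix.submatrix_apply, Equiv.symm_apply_apply]
  refine Fin.addCases (fun l => ?_) (fun i' => ?_) j
  · rw [← esum_castAdd, Equiv.symm_apply_apply, Matrix.fromBlocks_apply₁₁]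
    rw [Finset.sum_eq_zero (fun i' _ => if_neg (hcn l i')), mul_zero, zero_add,
      Finset.sum_eq_single l]
    · rw [if_pos rfl]
      rfl
    · intro l' _ hl'
      rw [if_neg fun h => hl' (Fin.castAdd_injective _ _ h).symm]
    · intro h
      exact absurd (Finset.mem_univ _) h
  · rw [← esum_natAdd, Equiv.symm_apply_apply, Matrix.fromBlocks_apply₁₂, Matrix.of_apply]
    rw [Finset.sum_eq_zero (s := Finset.univ) (f := fun l => if Fin.natAdd s i' =
      Fin.castAdd (d + 1) l then (bdir v i0 l i : ℝ) else 0)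
      (fun l _ => if_neg (fun h => hcn l i' h.symm)), add_zero, Finset.sum_eq_single i']
    · rw [if_pos rfl]
    · intro l' _ hl'
      rw [if_neg fun h => hl' (Fin.natAdd_injective _ _ h).symm]
    · intro h
      exact absurd (Finset.mem_univ _) h

theorem Rg_u_zero (i : Fin (d + 1)) :
    Rg al v i0 μ0 μ n (esum s d (Sum.inr i)) 0 = 0 := by
  unfold Rg
  rw [Matrix.submatrix_apply, Equiv.symm_apply_apply, ← esum_zero (s := s) (d := d),
    Equiv.symm_apply_apply, Matrix.fromBlocks_apply₂₁]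
  rfl

theorem Rg_u_succ (i : Fin (d + 1)) (j : Fin (s + (d + 1))) :
    Rg al v i0 μ0 μ n (esum s d (Sum.inr i)) j.succ =
      ∑ i', if j = Fin.natAdd s i' then ((dot al v : ℤ) : ℝ) *
        ∑ e, (n i e : ℝ) * μ e i' else 0 := by
  have hcn : ∀ (l : Fin s) (i' : Fin (d + 1)), Fin.castAdd (d + 1) l ≠ Fin.natAdd s i' := by
    intro l i' h
    have h1 := congrArg Fin.val h
    rw [Fin.val_castAdd, Fin.val_natAdd] at h1
    have := l.isLt
    omega
  unfold Rg
  rw [Matrix.submatrix_apply, Equiv.symm_apply_apply]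
  refine Fin.addCases (fun l => ?_) (fun i' => ?_) j
  · rw [← esum_castAdd, Equiv.symm_apply_apply, Matrix.fromBlocks_apply₂₁]
    rw [Finset.sum_eq_zero (fun i' _ => if_neg (hcn l i'))]
    rfl
  · rw [← esum_natAdd, Equiv.symm_apply_apply, Matrix.fromBlocks_apply₂₂, Matrix.of_apply]
    rw [Finset.sum_eq_single i']
    · rw [if_pos rfl]
    · intro l' _ hl'
      rw [if_neg fun h => hl' (Fin.natAdd_injective _ _ h).symm]
    · intro h
      exact absurd (Finset.mem_univ _) h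

end mat

section ent

variable {K : Type*} [Field K] {s d : ℕ} {E : Type*} [Fintype E]

variable (W : LP K (s + 1)) (Φ : MvPolynomial (Fin (d + 1)) K)
    {Ψ : MvPolynomial (Fin (d + 1)) K} {P : E → MvPolynomial (Fin (d + 1)) K}

/-- The units `∏_e P_e ^ n_e`. -/
noncomputable def qU (hP : ∀ e, P e ∣ Ψ) (n : E → ℤ) : (QOpen W Φ Ψ)ˣ :=
  ∏ e, qdiv W Φ (hP e) ^ n e

/-- The entries `z_0, ..., z_s, ∏_e P_e ^ n_(0,e), ..., ∏_e P_e ^ n_(d,e)`. -/
noncomputable def qent (hP : ∀ e, P e ∣ Ψ) (n : Fin (d + 1) → E → ℤ)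
    (l : Fin (s + (d + 1) + 1)) : (QOpen W Φ Ψ)ˣ :=
  Sum.elim (qz W Φ Ψ) (fun i => qU W Φ hP (n i)) ((esum s d).symm l)

end ent

/-- A chart in which `Φ_0` and the `P_e` are monomials up to functions without zeros. -/
structure Chart {K : Type*} [Field K] {d : ℕ} {E : Type*} (σ : K →+* ℂ)
    (Φ0 : MvPolynomial (Fin (d + 1)) K) (P : E → MvPolynomial (Fin (d + 1)) K) where
  /-- the chart -/
  X : (Fin d → ℂ) × ℂ → Fin (d + 1) → ℂ
  X_smooth : ContDiff ℂ 2 X
  /-- the exponents of `Φ_0` -/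
  μ0 : Fin (d + 1) → ℕ
  /-- the cofactor of `Φ_0` -/
  h0 : (Fin d → ℂ) × ℂ → ℂ
  h0_smooth : ContDiff ℂ 2 h0
  h0_ne : h0 0 ≠ 0
  h0_eq : ∀ y, MvPolynomial.eval₂ σ (X y) Φ0 = mmon μ0 y * h0 y
  /-- the exponents of the `P_e` -/
  μ : E → Fin (d + 1) → ℕ
  /-- the cofactors of the `P_e` -/
  h : E → (Fin d → ℂ) × ℂ → ℂ
  h_smooth : ∀ e, ContDiff ℂ 2 (h e)
  h_ne : ∀ e, h e 0 ≠ 0
  h_eq : ∀ e y, MvPolynomial.eval₂ σ (X y) (P e) = mmon (μ e) y * h e y

section main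

variable {K : Type*} [Field K] {s d : ℕ} {E : Type*} [Fintype E] {W : LP K (s + 1)}
  {Φ0 : MvPolynomial (Fin (d + 1)) K} {P : E → MvPolynomial (Fin (d + 1)) K}

theorem exists_torusG (σ : K →+* ℂ) {al v : Fin (s + 1) → ℤ} (hv : W.coeff v ≠ 0)
    (hpos : 0 < dot al v) (hmax : ∀ m, W.coeff m ≠ 0 → m ≠ v → dot al m < dot al v)
    (i0 : Fin (s + 1)) (Ch : Chart σ Φ0 P) {ι : Type*} [Fintype ι] [Nonempty ι]
    (n : ι → Fin (d + 1) → E → ℤ) {ε : ℝ} (hε : 0 < ε) :
    ∃ Λ0 : ℝ, 1 < Λ0 ∧ ∀ (lam : K) (Ψ : MvPolynomial (Fin (d + 1)) K) (hP : ∀ e, P e ∣ Ψ),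
      Λ0 ≤ ‖σ lam‖ → (∀ x : Fin (d + 1) → ℂ, MvPolynomial.eval₂ σ x Φ0 ≠ 0 →
        (∀ e, MvPolynomial.eval₂ σ x (P e) ≠ 0) → MvPolynomial.eval₂ σ x Ψ ≠ 0) →
      ∃ Γ : Torus (QOpen W (MvPolynomial.C lam * Φ0) Ψ) (s + (d + 1)),
        (∀ θ x, Γ.e θ (qcst W (MvPolynomial.C lam * Φ0) Ψ x) = σ x) ∧
        ∀ t : ι, |Γ.reg (symb (qent W (MvPolynomial.C lam * Φ0) hP (n t))) /
            Real.log ‖σ lam‖ -
            (2 * Real.pi) ^ (s + (d + 1)) * (Rg al v i0 Ch.μ0 Ch.μ (n t)).det| ≤ ε := by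
  classical
  have hpi := Real.pi_pos
  have hnpi : ‖(2 * Real.pi * Complex.I : ℂ)‖ = 2 * Real.pi := by
    rw [norm_mul, norm_mul, Complex.norm_I, Complex.norm_real, Complex.norm_ofNat, mul_one,
      Real.norm_eq_abs, abs_of_pos Real.pi_pos]
  set k : ℕ := (dot al v).toNat with hk
  have hkz : (k : ℤ) = dot al v := Int.toNat_of_nonneg hpos.le
  have hk0 : 0 < k := by omega
  have hkR : (0 : ℝ) < k := by exact_mod_cast hk0
  have hkzR : ((dot al v : ℤ) : ℝ) = k := by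
    rw [← hkz]
    simp
  have hσv : σ (W.coeff v) ≠ 0 := (map_ne_zero σ).2 hv
  -- tolerances
  choose δ hδ hclose using fun t : ι =>
    pairing_close (Rg al v i0 Ch.μ0 Ch.μ (n t)) hε
  obtain ⟨T0, -, hT0⟩ := Finset.exists_min_image (Finset.univ : Finset ι) δ
    Finset.univ_nonempty
  set Nn : ℝ := ∑ t : ι, ∑ l, ∑ e, |(n t l e : ℝ)| with hNn
  have hNn0 : 0 ≤ Nn := Finset.sum_nonneg fun t _ => Finset.sum_nonneg fun l _ =>
    Finset.sum_nonneg fun e _ => abs_nonneg _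
  have hNnle : ∀ t l, ∑ e, |(n t l e : ℝ)| ≤ Nn := fun t l =>
    (Finset.single_le_sum (f := fun l => ∑ e, |(n t l e : ℝ)|)
      (fun l _ => Finset.sum_nonneg fun e _ => abs_nonneg _) (Finset.mem_univ l)).trans
    (Finset.single_le_sum (f := fun t => ∑ l, ∑ e, |(n t l e : ℝ)|)
      (fun t _ => Finset.sum_nonneg fun l _ => Finset.sum_nonneg fun e _ => abs_nonneg _)
      (Finset.mem_univ t))
  set A : ℝ := 1 + ∑ i, |(al i : ℝ)| + Nn with hA
  have hsal : 0 ≤ ∑ i, |(al i : ℝ)| := Finset.sum_nonneg fun i _ => abs_nonneg _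
  have hA1 : 1 ≤ A := by linarith
  have hANn : Nn ≤ A := by linarith
  have hAi : ∀ i, |(al i : ℝ)| ≤ A := by
    intro i
    have h1 := Finset.single_le_sum (f := fun i => |(al i : ℝ)|) (fun i _ => abs_nonneg _)
      (Finset.mem_univ i)
    have h2 : |(al i : ℝ)| ≤ ∑ i, |(al i : ℝ)| := h1
    linarith
  set δ0 : ℝ := δ T0 / (4 * A) with hδ0
  have hδ0pos : 0 < δ0 := div_pos (hδ T0) (by linarith)
  have hδle : ∀ T', 3 * (A * δ0) < δ T' := by
    intro T'
    have h1 := hT0 T' (Finset.mem_univ T')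
    have h2 : δ T0 = 4 * (A * δ0) := by
      rw [hδ0]
      field_simp
    have h3 : 0 < A * δ0 := by positivity
    linarith
  have hδA : δ0 ≤ A * δ0 := le_mul_of_one_le_left hδ0pos.le hA1
  -- the chart
  set h := Ch.h with hh
  have hcd := Ch.h_smooth
  have hne := Ch.h_ne
  set Q : (Fin d → ℂ) × ℂ → ℂ := Ch.h0 with hQ
  have hQc : ContDiff ℂ 2 Q := Ch.h0_smooth
  have hQ0 : Q 0 ≠ 0 := Ch.h0_ne
  obtain ⟨Rt, hRc, hR0, hRe⟩ := exists_root Q hQc.contDiffAt hQ0 hk0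
  obtain ⟨C, ρ, hC, hρ, hρ1, hrho⟩ := exists_rho hk0
    (fun (e : Option E) y => Option.elim e (Rt y) fun e => h e y)
    (fun e => by
      cases e with
      | none => exact hRc
      | some e => exact (hcd e).contDiffAt)
    (fun e => by
      cases e with
      | none => exact hR0
      | some e => exact hne e)
    (P := fun y => Rt y ^ k = Q y) hRe hδ0pos
  -- the functions `z_i`
  set N : Fin (d + 1) → ℕ := Ch.μ0 with hN
  set B : ℝ := 2 * Real.pi * ∑ i, (N i : ℝ) + δ0 with hB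
  have hB0 : 0 ≤ B := by positivity
  obtain ⟨R, hR1, hz⟩ := exists_z σ hv hpos hmax i0 hB0 hδ0pos
  -- constants
  set Mu : ℝ := ∑ e, ∑ i, (Ch.μ e i : ℝ) with hMu
  have hMu0 : 0 ≤ Mu := by positivity
  have hMue : ∀ e, ∑ i, (Ch.μ e i : ℝ) ≤ Mu := fun e =>
    Finset.single_le_sum (f := fun e => ∑ i, (Ch.μ e i : ℝ))
      (fun e _ => Finset.sum_nonneg fun i _ => Nat.cast_nonneg _) (Finset.mem_univ e)
  set C1 : ℝ := k * Mu * |Real.log ρ| + C with hC1
  have hC10 : 0 ≤ C1 := by positivity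
  set C2 : ℝ := |Real.log ‖σ (W.coeff v)‖| + (∑ i, (N i : ℝ)) * |Real.log ρ| + C with hC2
  have hC20 : 0 ≤ C2 := by positivity
  set M : ℝ := (A * C2 + δ0) / δ0 + (Nn * C1) / δ0 + k * (Real.log R + C2) + 1 with hM
  have hlogR : 0 ≤ Real.log R := Real.log_nonneg hR1
  have hM1 : 0 ≤ (A * C2 + δ0) / δ0 := by positivity
  have hM2 : 0 ≤ (Nn * C1) / δ0 := by positivity
  have hM3 : 0 ≤ k * (Real.log R + C2) := by positivity
  refine ⟨Real.exp M + 1, by linarith [Real.exp_pos M], fun lam Ψ hP hlam hΨ => ?_⟩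
  have hln : 0 < ‖σ lam‖ := by linarith [Real.exp_pos M]
  have hl0 : σ lam ≠ 0 := norm_pos_iff.1 hln
  set t : ℝ := Real.log ‖σ lam‖ with ht
  have htM : M ≤ t := by
    rw [ht, Real.le_log_iff_exp_le hln]
    linarith
  have htpos : 0 < t := by linarith
  have ht0 : t ≠ 0 := htpos.ne'
  -- the positions of the angles
  obtain ⟨hRy, hfun⟩ := hrho (s + (d + 1)) (Fin.natAdd s)
  set Y : (Fin (s + (d + 1)) → ℝ) → (Fin d → ℂ) × ℂ := yk k ρ (Fin.natAdd s) with hY
  have hhg : ∀ e, Good fun θ => h e (Y θ) := fun e => (hfun (some e)).1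
  have hhlog : ∀ e θ, |Real.log ‖h e (Y θ)‖| ≤ C := fun e θ => ((hfun (some e)).2 θ).1
  have hhlw : ∀ e θ j, ‖lw (fun θ => h e (Y θ)) j θ‖ ≤ δ0 := fun e θ j =>
    ((hfun (some e)).2 θ).2 j
  have hRg : Good fun θ => Rt (Y θ) := (hfun none).1
  have hRlog : ∀ θ, |Real.log ‖Rt (Y θ)‖| ≤ C := fun θ => ((hfun none).2 θ).1
  have hRlw : ∀ θ j, ‖lw (fun θ => Rt (Y θ)) j θ‖ ≤ δ0 := fun θ j => ((hfun none).2 θ).2 j
  set X : (Fin (s + (d + 1)) → ℝ) → Fin (d + 1) → ℂ := fun θ => Ch.X (Y θ) with hX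
  have hXc : ContDiff ℝ 2 X :=
    (Ch.X_smooth.restrict_scalars ℝ).comp (contDiff_yk hρ)
  have hXp : ∀ θ j, X (θ + Pi.single j 1) = X θ := fun θ j => by
    simp only [hX, hY, yk_add_single]
  -- the functions `P_e`
  set PX : E → (Fin (s + (d + 1)) → ℝ) → ℂ := fun e θ =>
    MvPolynomial.eval₂ σ (X θ) (P e) with hPX
  have hLfun : ∀ e, PX e =
      fun θ => mk1 ρ (Fin.natAdd s) (fun i => k * Ch.μ e i) θ * h e (Y θ) := by
    intro e
    funext θ
    have h1 := Ch.h_eq e (Y θ)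
    rw [show PX e θ = MvPolynomial.eval₂ σ (Ch.X (Y θ)) (P e) from rfl, h1, hY, mmon_yk]
  have hLg : ∀ e, Good (PX e) := fun e => by
    rw [hLfun]
    exact (good_mk1 hρ _).mul (hhg e)
  have hLlog : ∀ e θ, |Real.log ‖PX e θ‖| ≤ C1 := by
    intro e θ
    rw [congrFun (hLfun e) θ, norm_mul, Real.log_mul
      (norm_ne_zero_iff.2 ((good_mk1 hρ _).ne_zero θ)) (norm_ne_zero_iff.2 ((hhg e).ne_zero θ)),
      log_mk1 hρ]
    refine (abs_add_le _ _).trans (add_le_add ?_ (hhlog e θ))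
    rw [abs_mul]
    refine mul_le_mul_of_nonneg_right ?_ (abs_nonneg _)
    have h1 : ∑ i, (((k * Ch.μ e i : ℕ)) : ℝ) = k * ∑ i, (Ch.μ e i : ℝ) := by
      push_cast
      rw [Finset.mul_sum]
    rw [h1, abs_of_nonneg (by positivity)]
    exact mul_le_mul_of_nonneg_left (hMue e) hkR.le
  have hLlw : ∀ e θ j, ‖lw (PX e) j θ - 2 * Real.pi * Complex.I *
      ∑ i, (if j = Fin.natAdd s i then (((k * Ch.μ e i : ℕ)) : ℂ) else 0)‖ ≤ δ0 := by
    intro e θ j
    rw [hLfun, lw_mul (good_mk1 hρ _) (hhg e), lw_mk1 hρ, add_sub_cancel_left]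
    exact hhlw e θ j
  -- the root `Λ`
  obtain ⟨κ, hκ⟩ := IsAlgClosed.exists_pow_nat_eq (σ lam / σ (W.coeff v)) hk0
  have hκ0 : κ ≠ 0 := by
    rintro rfl
    rw [zero_pow hk0.ne'] at hκ
    exact (div_ne_zero hl0 hσv) hκ.symm
  set Λ : (Fin (s + (d + 1)) → ℝ) → ℂ := fun θ =>
    κ * (mk1 ρ (Fin.natAdd s) N θ * Rt (Y θ)) with hΛ
  have hmg : Good (mk1 ρ (Fin.natAdd s (m := d + 1)) N) := good_mk1 hρ N
  have hΛg : Good Λ := (good_const hκ0).mul (hmg.mul hRg)
  have hΛp : Per Λ := by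
    intro θ j
    simp only [hΛ]
    have h1 := per_mk1 (ρ := ρ) (p := Fin.natAdd s (m := d + 1)) N θ j
    have h2 : Y (θ + Pi.single j 1) = Y θ := by rw [hY, yk_add_single]
    rw [h1, h2]
  have hlogκ : Real.log ‖κ‖ = (t - Real.log ‖σ (W.coeff v)‖) / k := by
    have h1 : (k : ℝ) * Real.log ‖κ‖ = t - Real.log ‖σ (W.coeff v)‖ := by
      rw [← Real.log_pow, ← norm_pow, hκ, norm_div, Real.log_div hln.ne'
        (norm_ne_zero_iff.2 hσv)]
    rw [← h1]
    field_simp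
  have hΛlog : ∀ θ, |Real.log ‖Λ θ‖ - t / k| ≤ C2 := by
    intro θ
    have h1 : Real.log ‖Λ θ‖ = Real.log ‖κ‖ + ((∑ i, (N i : ℝ)) * Real.log ρ +
        Real.log ‖Rt (Y θ)‖) := by
      simp only [hΛ]
      rw [norm_mul, norm_mul, Real.log_mul (norm_ne_zero_iff.2 hκ0)
        (mul_ne_zero (norm_ne_zero_iff.2 (hmg.ne_zero θ))
          (norm_ne_zero_iff.2 (hRg.ne_zero θ))), Real.log_mul
          (norm_ne_zero_iff.2 (hmg.ne_zero θ)) (norm_ne_zero_iff.2 (hRg.ne_zero θ)),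
        log_mk1 hρ]
    rw [h1, hlogκ]
    have h2 : (t - Real.log ‖σ (W.coeff v)‖) / k + ((∑ i, (N i : ℝ)) * Real.log ρ +
        Real.log ‖Rt (Y θ)‖) - t / k = -(Real.log ‖σ (W.coeff v)‖ / k) +
        ((∑ i, (N i : ℝ)) * Real.log ρ + Real.log ‖Rt (Y θ)‖) := by
      ring
    rw [h2]
    refine (abs_add_le _ _).trans ?_
    rw [hC2, add_assoc]
    refine add_le_add ?_ ((abs_add_le _ _).trans (add_le_add ?_ (hRlog θ)))
    · rw [abs_neg, abs_div, abs_of_pos hkR]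
      have h3 : (1 : ℝ) ≤ k := by exact_mod_cast hk0
      exact div_le_self (abs_nonneg _) h3
    · rw [abs_mul, abs_of_nonneg (by positivity)]
  have hΛR : ∀ θ, R ≤ ‖Λ θ‖ := by
    intro θ
    have h1 := (abs_le.1 (hΛlog θ)).1
    have h2 : Real.log R ≤ Real.log ‖Λ θ‖ := by
      have h3 : Real.log R + C2 ≤ t / k := by
        rw [le_div_iff₀ hkR]
        linarith
      linarith
    exact (Real.log_le_log_iff (by linarith) (norm_pos_iff.2 (hΛg.ne_zero θ))).1 h2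
  have hΛlw : ∀ θ j, ‖lw Λ j θ - 2 * Real.pi * Complex.I *
      ∑ i, (if j = Fin.natAdd s i then (N i : ℂ) else 0)‖ ≤ δ0 := by
    intro θ j
    have h1 := lw_mul (good_const (d := s + (d + 1)) hκ0) (hmg.mul hRg) j θ
    rw [lw_const, zero_add, lw_mul hmg hRg, lw_mk1 hρ] at h1
    have h2 : lw Λ j θ = _ := h1
    rw [h2, add_sub_cancel_left]
    exact hRlw θ j
  have hNsum : ∀ j : Fin (s + (d + 1)), ‖∑ i, (if j = Fin.natAdd s i then (N i : ℂ) else 0)‖ ≤
      ∑ i, (N i : ℝ) := by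
    intro j
    refine (norm_sum_le _ _).trans (Finset.sum_le_sum fun i _ => ?_)
    split_ifs
    · rw [Complex.norm_natCast]
    · rw [norm_zero]
      exact Nat.cast_nonneg _
  have hΛB : ∀ j θ, ‖lw Λ j θ‖ ≤ B := by
    intro j θ
    have h1 := norm_sub_norm_le (lw Λ j θ) (2 * Real.pi * Complex.I *
      ∑ i, (if j = Fin.natAdd s i then (N i : ℂ) else 0))
    have h2 := hΛlw θ j
    have h3 : ‖(2 * Real.pi * Complex.I * ∑ i, (if j = Fin.natAdd s i then (N i : ℂ) else 0) : ℂ)‖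
        ≤ 2 * Real.pi * ∑ i, (N i : ℝ) := by
      rw [norm_mul, hnpi]
      exact mul_le_mul_of_nonneg_left (hNsum j) (by positivity)
    rw [hB]
    linarith
  have hPhiX : ∀ θ, MvPolynomial.eval₂ σ (X θ) Φ0 =
      mk1 ρ (Fin.natAdd s) N θ ^ k * Q (Y θ) := by
    intro θ
    have h1 := Ch.h0_eq (Y θ)
    rw [show MvPolynomial.eval₂ σ (X θ) Φ0 = MvPolynomial.eval₂ σ (Ch.X (Y θ)) Φ0 from rfl, h1,
      ← mk1_pow, hY, mmon_yk]
  have hΛk : ∀ θ, σ (W.coeff v) * Λ θ ^ k =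
      MvPolynomial.eval₂ σ (X θ) (MvPolynomial.C lam * Φ0) := by
    intro θ
    have h4 : Rt (Y θ) ^ k = Q (Y θ) := hRy θ
    rw [MvPolynomial.eval₂_mul, MvPolynomial.eval₂_C, hPhiX]
    simp only [hΛ]
    rw [mul_pow, mul_pow, hκ, h4]
    field_simp
  obtain ⟨Z, hZg, hZp, hZlog, hZlw, hZeq⟩ := hz (s + (d + 1)) (Fin.castAdd (d + 1)) Λ hΛg hΛp
    hΛR hΛB
  have hPhi0 : ∀ θ, MvPolynomial.eval₂ σ (X θ) Φ0 ≠ 0 := by
    intro θ h1
    have h2 := hΛk θ
    rw [MvPolynomial.eval₂_mul, h1, mul_zero] at h2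
    exact mul_ne_zero hσv (pow_ne_zero _ (hΛg.ne_zero θ)) h2
  have hPt : ∀ θ, QPt σ W (MvPolynomial.C lam * Φ0) Ψ (X θ) fun i => Z i θ := fun θ =>
    { ne := fun i => (hZg i).ne_zero θ
      eq := (hZeq θ).trans (hΛk θ)
      phi := by
        rw [← hΛk θ]
        exact mul_ne_zero hσv (pow_ne_zero _ (hΛg.ne_zero θ))
      psi := hΨ _ (hPhi0 θ) fun e => (hLg e).ne_zero θ }
  set Γ := mkQ hXc hZg hPt hXp hZp with hΓ
  refine ⟨Γ, fun θ x => (hPt θ).ev_qcst x, fun T' => ?_⟩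
  rw [Torus.reg_symb]
  set en : Fin (s + (d + 1) + 1) → (QOpen W (MvPolynomial.C lam * Φ0) Ψ)ˣ :=
    qent W (MvPolynomial.C lam * Φ0) hP (n T') with hen
  have hgoodE : ∀ l, Good (Γ.fn (en l : QOpen W (MvPolynomial.C lam * Φ0) Ψ)) :=
    fun l => Γ.good _
  have hzfn : ∀ i, Γ.fn (en (esum s d (Sum.inl i)) :
      QOpen W (MvPolynomial.C lam * Φ0) Ψ) = Z i := by
    intro i
    have h1 : en (esum s d (Sum.inl i)) = qz W (MvPolynomial.C lam * Φ0) Ψ i := by
      rw [hen]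
      unfold qent
      rw [Equiv.symm_apply_apply, Sum.elim_inl]
    rw [h1]
    funext θ
    exact (hPt θ).ev_qz i
  have hufn : ∀ i : Fin (d + 1), Γ.fn (en (esum s d (Sum.inr i)) :
      QOpen W (MvPolynomial.C lam * Φ0) Ψ) = fun θ => ∏ e, PX e θ ^ n T' i e := by
    intro i
    have h1 : en (esum s d (Sum.inr i)) = qU W (MvPolynomial.C lam * Φ0) hP (n T' i) := by
      rw [hen]
      unfold qent
      rw [Equiv.symm_apply_apply, Sum.elim_inr]
    rw [h1]
    funext θ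
    have h5 : Γ.fn (qU W (MvPolynomial.C lam * Φ0) hP (n T' i) :
        QOpen W (MvPolynomial.C lam * Φ0) Ψ) θ =
        (Units.map ((hPt θ).ev : QOpen W (MvPolynomial.C lam * Φ0) Ψ →* ℂ)
          (qU W (MvPolynomial.C lam * Φ0) hP (n T' i)) : ℂ) := rfl
    rw [h5]
    unfold qU
    rw [map_prod, Units.coe_prod]
    refine Finset.prod_congr rfl fun e _ => ?_
    rw [map_zpow, Units.val_zpow_eq_zpow_val, Units.coe_map]
    congr 1
    exact (hPt θ).ev_qx (P e)
  refine hclose T' _ _ ht0 hgoodE (fun l θ => ?_) (fun l j θ => ?_)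
  · obtain ⟨r, rfl⟩ := (esum s d).surjective l
    rcases r with i | i
    · rw [Rg_z_zero, congrFun (hzfn i) θ, hkzR]
      refine lt_of_le_of_lt ?_ (hδle T')
      have h1 := hZlog i θ
      have h2 := hΛlog θ
      have h3 : Real.log ‖Z i θ‖ / t - al i / k =
          ((Real.log ‖Z i θ‖ - al i * Real.log ‖Λ θ‖) +
            al i * (Real.log ‖Λ θ‖ - t / k)) / t := by
        field_simp
        ring
      rw [h3, abs_div, abs_of_pos htpos, div_le_iff₀ htpos]
      refine (abs_add_le _ _).trans ?_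
      rw [abs_mul]
      have h4 : |(al i : ℝ)| * |Real.log ‖Λ θ‖ - t / k| ≤ A * C2 :=
        mul_le_mul (hAi i) h2 (abs_nonneg _) (by linarith)
      have h5 : (A * C2 + δ0) / δ0 ≤ t := by linarith
      rw [div_le_iff₀ hδ0pos] at h5
      have h6 : t * δ0 ≤ 3 * (A * δ0) * t := by
        have : δ0 ≤ 3 * (A * δ0) := by linarith [mul_pos (lt_of_lt_of_le one_pos hA1) hδ0pos]
        nlinarith
      linarith
    · rw [Rg_u_zero, sub_zero, congrFun (hufn i) θ]
      refine lt_of_le_of_lt ?_ (hδle T')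
      have h4 : Real.log ‖∏ e, PX e θ ^ n T' i e‖ = ∑ e, (n T' i e : ℝ) *
          Real.log ‖PX e θ‖ := by
        rw [norm_prod, Real.log_prod fun e _ => norm_ne_zero_iff.2
          (zpow_ne_zero _ ((hLg e).ne_zero θ))]
        refine Finset.sum_congr rfl fun e _ => ?_
        rw [norm_zpow, Real.log_zpow]
      rw [h4, abs_div, abs_of_pos htpos, div_le_iff₀ htpos]
      have h6 : |∑ e, (n T' i e : ℝ) * Real.log ‖PX e θ‖| ≤ Nn * C1 := by
        refine (Finset.abs_sum_le_sum_abs _ _).trans ?_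
        calc ∑ e, |(n T' i e : ℝ) * Real.log ‖PX e θ‖| ≤ ∑ e, |(n T' i e : ℝ)| * C1 :=
              Finset.sum_le_sum fun e _ => by
                rw [abs_mul]
                exact mul_le_mul_of_nonneg_left (hLlog e θ) (abs_nonneg _)
          _ = (∑ e, |(n T' i e : ℝ)|) * C1 := by rw [Finset.sum_mul]
          _ ≤ Nn * C1 := mul_le_mul_of_nonneg_right (hNnle T' i) hC10
      have h7 : (Nn * C1) / δ0 ≤ t := by linarith
      rw [div_le_iff₀ hδ0pos] at h7
      have h8 : t * δ0 ≤ 3 * (A * δ0) * t := by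
        have : δ0 ≤ 3 * (A * δ0) := by linarith [mul_pos (lt_of_lt_of_le one_pos hA1) hδ0pos]
        nlinarith
      linarith
  · obtain ⟨r, rfl⟩ := (esum s d).surjective l
    rcases r with i | i
    · rw [Rg_z_succ, hzfn i]
      refine lt_of_le_of_lt ?_ (hδle T')
      have h1 := hZlw i j θ
      have h2 := hΛlw θ j
      have hite : ∀ (P : Prop) [Decidable P] (x : ℝ),
          ((if P then x else 0 : ℝ) : ℂ) = if P then (x : ℂ) else 0 := by
        intro P _ x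
        split_ifs <;> simp
      simp only [Complex.ofReal_add, Complex.ofReal_mul, Complex.ofReal_sum, hite,
        Complex.ofReal_natCast, Complex.ofReal_intCast]
      have e1 : lw (Z i) j θ - 2 * Real.pi * Complex.I *
          (al i * (∑ i', if j = Fin.natAdd s i' then (Ch.μ0 i' : ℂ) else 0) +
            ∑ l, if j = Fin.castAdd (d + 1) l then (bdir v i0 l i : ℂ) else 0) =
          (lw (Z i) j θ - (al i * lw Λ j θ + 2 * Real.pi * Complex.I *
            ∑ l, if j = Fin.castAdd (d + 1) l then (bdir v i0 l i : ℂ) else 0)) +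
          al i * (lw Λ j θ - 2 * Real.pi * Complex.I *
            ∑ i, (if j = Fin.natAdd s i then (N i : ℂ) else 0)) := by
        rw [hN]
        ring
      rw [e1]
      refine (norm_add_le _ _).trans ?_
      rw [norm_mul, Complex.norm_intCast]
      have h4 : |(al i : ℝ)| * ‖lw Λ j θ - 2 * Real.pi * Complex.I *
            ∑ i, (if j = Fin.natAdd s i then (N i : ℂ) else 0)‖ ≤ A * δ0 :=
        mul_le_mul (hAi i) h2 (norm_nonneg _) (by linarith)
      linarith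
    · rw [Rg_u_succ, hufn i]
      refine lt_of_le_of_lt ?_ (hδle T')
      have h4 : lw (fun θ => ∏ e, PX e θ ^ n T' i e) j θ =
          ∑ e, (n T' i e : ℂ) * lw (PX e) j θ := by
        have h5 := lw_prod (d := s + (d + 1)) (Finset.univ : Finset E)
          (F := fun e θ => PX e θ ^ n T' i e) (fun e => good_zpow (hLg e) _) j θ
        rw [h5]
        exact Finset.sum_congr rfl fun e _ => lw_zpow (hLg e) _ j θ
      have e1 : (((∑ i', if j = Fin.natAdd s i' then ((dot al v : ℤ) : ℝ) *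
          ∑ e, (n T' i e : ℝ) * Ch.μ e i' else 0 : ℝ)) : ℂ) =
          ∑ e, (n T' i e : ℂ) *
            ∑ i', (if j = Fin.natAdd s i' then (((k * Ch.μ e i' : ℕ)) : ℂ) else 0) := by
        rw [hkzR]
        simp only [Finset.mul_sum]
        rw [Finset.sum_comm, Complex.ofReal_sum]
        refine Finset.sum_congr rfl fun i' _ => ?_
        split_ifs
        · push_cast
          rw [Finset.sum_congr rfl]
          intro e _
          ring
        · simp
      rw [h4, e1, Finset.mul_sum, ← Finset.sum_sub_distrib]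
      have e2 : ∀ e, (n T' i e : ℂ) * lw (PX e) j θ - 2 * Real.pi * Complex.I *
          ((n T' i e : ℂ) *
            ∑ i', (if j = Fin.natAdd s i' then (((k * Ch.μ e i' : ℕ)) : ℂ) else 0)) =
          (n T' i e : ℂ) * (lw (PX e) j θ - 2 * Real.pi * Complex.I *
            ∑ i', (if j = Fin.natAdd s i' then (((k * Ch.μ e i' : ℕ)) : ℂ) else 0)) := by
        intro e
        ring
      simp only [e2]
      refine (norm_sum_le _ _).trans ?_
      calc ∑ e, ‖(n T' i e : ℂ) * (lw (PX e) j θ - 2 * Real.pi * Complex.I *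
            ∑ i', (if j = Fin.natAdd s i' then (((k * Ch.μ e i' : ℕ)) : ℂ) else 0))‖ ≤
            ∑ e, |(n T' i e : ℝ)| * δ0 := Finset.sum_le_sum fun e _ => by
              rw [norm_mul, Complex.norm_intCast]
              exact mul_le_mul_of_nonneg_left (hLlw e θ j) (abs_nonneg _)
        _ = (∑ e, |(n T' i e : ℝ)|) * δ0 := by rw [Finset.sum_mul]
        _ ≤ Nn * δ0 := mul_le_mul_of_nonneg_right (hNnle T' i) hδ0pos.le
        _ ≤ A * δ0 := mul_le_mul_of_nonneg_right hANn hδ0pos.le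
        _ ≤ 3 * (A * δ0) := by
            have : 0 < A * δ0 := by positivity
            linarith

end main

end Pool.Agent.U374.Tr
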