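import Pool.Agent.U374.Tr.AUnr
set_option autoImplicit false

/-!
The dimension of `Adm`, and the regulators of the symbols for large `λ`.
-/

namespace Pool.Agent.U374.Tr

open Pool.Agent.TH826.MK

open Pool.Agent.TH826.SX (det_ne_zero_near)

open Pool.Agent.N65.TL

namespace Arr

section dim

variable {K : Type*} [Field K] {s d : ℕ} (A : Arr K s d)

/-- representatives of the classes -/
noncomputable def rho (e : A.Ix) (l : Fin (d + 1)) (a : Fin (A.r l + 1)) : Fin (A.r l + 1) :=
  open Classical in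
    if l ≤ e.1 then a else Function.invFun (fun i' => A.res e (A.φ l i')) (A.res e (A.φ l a))

theorem rho_le {e : A.Ix} {l : Fin (d + 1)} (h : l ≤ e.1) (a : Fin (A.r l + 1)) :
    A.rho e l a = a := if_pos h

theorem res_rho {e : A.Ix} {l : Fin (d + 1)} (a : Fin (A.r l + 1)) :
    A.res e (A.φ l (A.rho e l a)) = A.res e (A.φ l a) := by
  unfold rho
  split_ifs with h
  · rfl
  · exact Function.invFun_eq (f := fun i' => A.res e (A.φ l i')) ⟨a, rfl⟩

theorem rho_eq_iff {e : A.Ix} {l : Fin (d + 1)} (h : e.1 < l) (a b : Fin (A.r l + 1)) :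
    A.rho e l a = A.rho e l b ↔ A.res e (A.φ l a) = A.res e (A.φ l b) := by
  constructor
  · intro h1
    rw [← A.res_rho a, ← A.res_rho b, h1]
  · intro h1
    unfold rho
    rw [if_neg (not_le.2 h), if_neg (not_le.2 h), h1]

theorem rho_rho (e : A.Ix) (l : Fin (d + 1)) (a : Fin (A.r l + 1)) :
    A.rho e l (A.rho e l a) = A.rho e l a := by
  rcases le_or_gt l e.1 with h | h
  · rw [A.rho_le h, A.rho_le h]
  · rw [A.rho_eq_iff h, A.res_rho]

theorem card_rho_of_lt {e : A.Ix} {l : Fin (d + 1)} (h : l < e.1) :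
    (Finset.univ.image (A.rho e l)).card = A.r l + 1 := by
  have h1 : A.rho e l = id := funext fun a => A.rho_le h.le a
  rw [h1, Finset.image_id, Finset.card_univ, Fintype.card_fin]

theorem card_rho_of_gt {e : A.Ix} {l : Fin (d + 1)} (h : e.1 < l) :
    (Finset.univ.image (A.rho e l)).card = A.cnt e l := by
  classical
  have h1 : Finset.univ.image (fun i' => A.res e (A.φ l i')) =
      (Finset.univ.image (A.rho e l)).image (fun i' => A.res e (A.φ l i')) := by
    rw [Finset.image_image]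
    refine Finset.image_congr fun a _ => ?_
    exact (A.res_rho a).symm
  have h2 : A.cnt e l = (Finset.univ.image (fun i' => A.res e (A.φ l i'))).card := by
    unfold cnt
    congr
  rw [h2, h1]
  refine (Finset.card_image_of_injOn ?_).symm
  intro a ha b hb hab
  obtain ⟨a', -, rfl⟩ := Finset.mem_image.1 (Finset.mem_coe.1 ha)
  obtain ⟨b', -, rfl⟩ := Finset.mem_image.1 (Finset.mem_coe.1 hb)
  have hab' : A.res e (A.φ l (A.rho e l a')) = A.res e (A.φ l (A.rho e l b')) := hab
  rw [A.res_rho, A.res_rho] at hab'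
  exact (A.rho_eq_iff h a' b').2 hab'

theorem finrank_adm : ∏ j, A.r j ≤ Module.finrank ℚ A.Adm +
    ∑ e : A.Ix, if A.w e.1 e.2 = 0 then
      (∏ l with l < e.1, A.r l) * ∏ l with e.1 < l, (A.cnt e l - 1) else 0 := by
  classical
  have h1 := finrank_bound (r := A.r) (ι := {e : A.Ix // A.w e.1 e.2 = 0}) (fun e => e.1.1)
    (fun e => Function.update (fun _ => 0) e.1.1 e.1.2) (fun e => A.rho e.1)
    (fun e => A.rho_rho e.1) (fun e a => A.rho_le le_rfl a) A.Adm
    (fun n hn1 hn2 => ⟨hn1, fun j T hw => by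
      have h2 := hn2 ⟨⟨j, T j⟩, hw⟩ T (by simp)
      unfold clsum at h2
      rw [← h2]
      refine Finset.sum_congr ?_ fun _ _ => rfl
      ext T'
      simp only [Finset.mem_filter, Finset.mem_univ, true_and]
      constructor
      · rintro ⟨h3, h4⟩ l
        rcases le_or_gt l j with hl | hl
        · rw [h3 l hl]
        · exact (A.rho_eq_iff (e := ⟨j, T j⟩) hl _ _).2 (h4 l hl)
      · intro h3
        refine ⟨fun l hl => ?_, fun l hl => ?_⟩
        · have h4 := h3 l
          rwa [A.rho_le (e := ⟨j, T j⟩) hl, A.rho_le (e := ⟨j, T j⟩) hl] at h4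
        · exact (A.rho_eq_iff (e := ⟨j, T j⟩) hl _ _).1 (h3 l)⟩)
  refine h1.trans (Nat.add_le_add_left (le_of_eq ?_) _)
  rw [← Finset.sum_filter, ← Finset.sum_subtype_eq_sum_filter]
  have h3 : ∀ e : A.Ix, ∏ l ∈ Finset.univ.erase e.1,
      ((Finset.univ.image (A.rho e l)).card - 1) =
      (∏ l with l < e.1, A.r l) * ∏ l with e.1 < l, (A.cnt e l - 1) := by
    intro e
    have h4 : (Finset.univ.erase e.1 : Finset (Fin (d + 1))) =
        (Finset.univ.filter fun l => l < e.1) ∪ Finset.univ.filter fun l => e.1 < l := by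
      ext l
      simp only [Finset.mem_erase, Finset.mem_univ, and_true, Finset.mem_union, Finset.mem_filter,
        true_and]
      exact lt_or_lt_iff_ne.symm
    rw [h4, Finset.prod_union]
    · congr 1
      · refine Finset.prod_congr rfl fun l hl => ?_
        rw [A.card_rho_of_lt (Finset.mem_filter.1 hl).2, Nat.add_sub_cancel]
      · refine Finset.prod_congr rfl fun l hl => ?_
        rw [A.card_rho_of_gt (Finset.mem_filter.1 hl).2]
    · rw [Finset.disjoint_left]
      intro l hl hl'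
      exact absurd (Finset.mem_filter.1 hl).2 (not_lt.2 (Finset.mem_filter.1 hl').2.le)
  simp only [h3]
  refine Finset.sum_bij (fun e _ => e) (fun e _ => ?_) (fun e _ e' _ h => h) (fun e _ => ⟨e, Finset.mem_univ _, rfl⟩)
    (fun e _ => rfl)
  exact Finset.mem_subtype.2 (Finset.mem_univ _)

end dim

section main

variable {K : Type*} [Field K] {s d : ℕ} {A : Arr K s d}

/-- The exponents of the entries of the symbol of `T`. -/
def nS {r : Fin (d + 1) → ℕ} (T : Tup r) (l : Fin (d + 1))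
    (e : (j : Fin (d + 1)) × Fin (r j + 1)) : ℤ := if e = ⟨l, T l⟩ then 1 else 0

theorem leadG_nS {r : Fin (d + 1) → ℕ}
    (μ : (j : Fin (d + 1)) × Fin (r j + 1) → Fin (d + 1) → ℕ)
    {T : Tup r} (h1 : ∀ j, μ ⟨j, T j⟩ j = 1) (h2 : ∀ j l, j < l → μ ⟨j, T j⟩ l = 0)
    (h3 : ∀ j i, i ≠ T j → ∀ l, j ≤ l → μ ⟨j, i⟩ l = 0) (T' : Tup r) :
    leadG μ (nS T') = if T = T' then 1 else 0 := by
  classical
  have h0 : ∀ (l j : Fin (d + 1)), ∑ e, (nS T' l e : ℝ) * μ e j = μ ⟨l, T' l⟩ j := by
    intro l j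
    unfold nS
    push_cast
    simp only [ite_mul, one_mul, zero_mul]
    rw [Finset.sum_ite_eq' Finset.univ, if_pos (Finset.mem_univ _)]
  unfold leadG
  simp only [h0]
  rw [Matrix.det_of_isLowerTriangular]
  · simp only [Matrix.of_apply]
    have hdiag : ∀ j, ((μ ⟨j, T' j⟩ j : ℕ) : ℝ) = if T j = T' j then 1 else 0 := by
      intro j
      split_ifs with h
      · rw [← h, h1]
        simp
      · rw [h3 j _ (fun h' => h h'.symm) j le_rfl]
        simp
    simp only [hdiag]
    by_cases h : T = T'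
    · rw [if_pos h]
      exact Finset.prod_eq_one fun j _ => if_pos (congrFun h j)
    · rw [if_neg h]
      obtain ⟨j, hj⟩ := Function.ne_iff.1 h
      exact Finset.prod_eq_zero (Finset.mem_univ j) (if_neg hj)
  · intro i j hij
    have hij' : i < j := hij
    show ((μ ⟨i, T' i⟩ j : ℕ) : ℝ) = 0
    by_cases h : T i = T' i
    · rw [← h, h2 i j hij']
      simp
    · rw [h3 i _ (fun h' => h h'.symm) j hij'.le]
      simp

theorem P_ne (hA : A.Admissible) (e : A.Ix) : A.P e ≠ 0 := gr_ne hA.phi_vars e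

theorem Phi0_ne (hA : A.Admissible) : A.Phi0 ≠ 0 :=
  mul_ne_zero hA.g_ne (Finset.prod_ne_zero_iff.2 fun e _ => pow_ne_zero _ (P_ne hA e))

theorem qent_eq (lam : K) (T : Tup A.r) :
    symb (qent A.W (A.Phi lam) (A.P_dvd lam) (nS T)) = A.sym lam T := by
  classical
  unfold sym
  refine congrArg symb (funext fun l => ?_)
  unfold qent
  obtain ⟨t, rfl⟩ := (esum s d).surjective l
  rw [Equiv.symm_apply_apply]
  rcases t with i | j
  · rfl
  · rw [Sum.elim_inr, Sum.elim_inr]
    unfold qU nS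
    rw [Finset.prod_eq_single ⟨j, T j⟩]
    · rw [if_pos rfl, zpow_one]
      rfl
    · intro b _ hb
      rw [if_neg hb, zpow_zero]
    · intro h
      exact absurd (Finset.mem_univ _) h

theorem exists_det (σ : K →+* ℂ) (hA : A.Admissible) :
    ∃ C : ℝ, 1 ≤ C ∧ ∀ lam : K, C ≤ ‖σ lam‖ → A.Indep σ lam := by
  classical
  obtain ⟨al, v, hv, hpos, hmax⟩ := exists_vertex hA.interior
  obtain ⟨i0, hi0⟩ : ∃ i0, v i0 ≠ 0 := by
    by_contra hcon
    push Not at hcon
    have h1 : dot al v = 0 := Finset.sum_eq_zero fun i _ => by rw [hcon i, mul_zero]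
    omega
  set D0 : ℝ := (2 * Real.pi) ^ (s + (d + 1)) * ((zmat al v i0).det *
    ((dot al v : ℤ) : ℝ) ^ (d + 1)) with hD0
  have hD00 : D0 ≠ 0 := by
    refine mul_ne_zero (pow_ne_zero _ (by have := Real.pi_pos; positivity))
      (mul_ne_zero (det_zmat hpos hi0) (pow_ne_zero _ ?_))
    exact_mod_cast hpos.ne'
  set M0 : Matrix (Tup A.r) (Tup A.r) ℝ := D0 • 1 with hM0
  have hM : M0.det ≠ 0 := by
    rw [hM0, Matrix.det_smul, Matrix.det_one, mul_one]
    exact pow_ne_zero _ hD00
  obtain ⟨δ, hδ, hdet⟩ := det_ne_zero_near M0 hM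
  choose Ch hC1 hC2 hC3 using fun T : Tup A.r =>
    exists_chart σ hA.phi_vars hA.distinct (Phi0_ne hA) T
  choose Λ hΛ1 hΛ using fun T : Tup A.r =>
    exists_torusG (W := A.W) (P := A.P) σ hv hpos hmax i0 (Ch T)
      (fun T' : Tup A.r => nS T') (ε := δ / 2) (by linarith)
  set C : ℝ := ∑ T, |Λ T| + 2 with hC
  have hsum : 0 ≤ ∑ T, |Λ T| := Finset.sum_nonneg fun J _ => abs_nonneg _
  have hΛC : ∀ T, Λ T ≤ C := by
    intro T
    have h1 := Finset.single_le_sum (f := fun T => |Λ T|) (fun T _ => abs_nonneg _)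
      (Finset.mem_univ T)
    have h2 := le_abs_self (Λ T)
    have h3 : |Λ T| ≤ ∑ T, |Λ T| := h1
    linarith
  refine ⟨C, by linarith, fun lam hlam => ?_⟩
  have hl0 : σ lam ≠ 0 := by
    intro h0
    rw [h0, norm_zero] at hlam
    linarith
  choose Γ hΓ1 hΓ2 using fun T => hΛ T lam (A.Psi lam) (A.P_dvd lam)
    ((hΛC T).trans hlam) (fun x h1 h2 => by
      unfold Psi
      rw [MvPolynomial.eval₂_mul, MvPolynomial.eval₂_C, MvPolynomial.eval₂_mul,
        MvPolynomial.eval₂_prod]
      refine mul_ne_zero hl0 (mul_ne_zero (fun h3 => h1 ?_)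
        (Finset.prod_ne_zero_iff.2 fun e _ => h2 e))
      unfold Phi0
      rw [MvPolynomial.eval₂_mul, h3, zero_mul])
  refine ⟨Γ, hΓ1, ?_⟩
  have hs : Real.log ‖σ lam‖ ≠ 0 := by
    have : 0 < Real.log ‖σ lam‖ := Real.log_pos (by linarith)
    linarith
  set t : ℝ := Real.log ‖σ lam‖ with htdef
  have h1 : (Matrix.of fun T T' : Tup A.r => (Γ T).reg (A.sym lam T') / t).det ≠ 0 := by
    refine hdet _ fun T T' => ?_
    have h3 := hΓ2 T T'
    rw [det_Rg, leadG_nS _ (hC1 T) (hC2 T) (hC3 T)] at h3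
    have h3' : |(Γ T).reg (A.sym lam T') / t - (2 * Real.pi) ^ (s + (d + 1)) *
        ((zmat al v i0).det * (((dot al v : ℤ) : ℝ) ^ (d + 1) * if T = T' then 1 else 0))| ≤
          δ / 2 := by
      rw [← qent_eq]
      exact h3
    have h4 : (2 * Real.pi) ^ (s + (d + 1)) * ((zmat al v i0).det *
        (((dot al v : ℤ) : ℝ) ^ (d + 1) * if T = T' then 1 else 0)) = M0 T T' := by
      rw [hM0, Matrix.smul_apply, Matrix.one_apply, hD0, smul_eq_mul]
      ring
    rw [h4] at h3'
    rw [Matrix.of_apply]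
    exact lt_of_le_of_lt h3' (show δ / 2 < δ by linarith)
  have h2 : (Matrix.of fun T T' : Tup A.r => (Γ T).reg (A.sym lam T')) =
      t • (Matrix.of fun T T' : Tup A.r => (Γ T).reg (A.sym lam T') / t) := by
    ext T T'
    rw [Matrix.smul_apply, Matrix.of_apply, Matrix.of_apply, smul_eq_mul]
    field_simp
  show (Matrix.of fun T T' : Tup A.r => (Γ T).reg (A.sym lam T')).det ≠ 0
  rw [h2, Matrix.det_smul]
  exact mul_ne_zero (pow_ne_zero _ hs) h1

/-- The regulators of classes with linearly independent coefficients are linearly independent. -/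
theorem linearIndependent_reg {lam : K} {D : ℕ} (Γ : Tup A.r → Torus (A.Open lam) (s + (d + 1)))
    (hΓ : (Matrix.of fun T T' : Tup A.r => (Γ T).reg (A.sym lam T')).det ≠ 0)
    {B : Fin D → Tup A.r → ℚ} (hB : LinearIndependent ℚ B) :
    LinearIndependent ℝ fun i T => (Γ T).reg (A.cl lam (B i)) := by
  classical
  set M : Matrix (Tup A.r) (Tup A.r) ℝ := Matrix.of fun T T' => (Γ T).reg (A.sym lam T') with hM
  have h1 : LinearIndependent ℝ fun i => algebraMap ℚ ℝ ∘ B i :=
    linearIndependent_algebraMap_comp_iff.2 hB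
  have h2 : Function.Injective M.mulVec :=
    Matrix.mulVec_injective_of_isUnit ((Matrix.isUnit_iff_isUnit_det M).2 (isUnit_iff_ne_zero.2 hΓ))
  have h3 := h1.map' M.mulVecLin (LinearMap.ker_eq_bot.2 h2)
  have h4 : (fun i T => (Γ T).reg (A.cl lam (B i))) = M.mulVecLin ∘ fun i =>
      algebraMap ℚ ℝ ∘ B i := by
    funext i T
    unfold cl
    rw [map_sum]
    show _ = ∑ T', M T T' * ((B i T' : ℚ) : ℝ)
    refine Finset.sum_congr rfl fun T' _ => ?_
    rw [map_smul, Rat.smul_def, mul_comm]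
    rfl
  rw [h4]
  exact h3

end main

end Arr

end Pool.Agent.U374.Tr
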