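import Mathlib
set_option autoImplicit false

/-!
Functions on a product of finite sets whose sums over all coordinates vanish, and lower bounds for
the dimensions of spaces of such functions with further vanishing sums over classes.
-/

namespace Pool.Agent.U374.Tr

open Finset

section sums

variable {m : ℕ} {r : Fin m → ℕ}

/-- The tuples `T_j`, `0 ≤ T_j ≤ r_j`. -/
abbrev Tup (r : Fin m → ℕ) : Type := (j : Fin m) → Fin (r j + 1)

/-- Sums over sets which are invariant under changes of one coordinate vanish. -/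
theorem sum_invariant {n : Tup r → ℚ} {l : Fin m}
    (h : ∀ T, ∑ i, n (Function.update T l i) = 0) (F : Finset (Tup r))
    (hF : ∀ T ∈ F, ∀ i, Function.update T l i ∈ F) : ∑ T ∈ F, n T = 0 := by
  classical
  have h1 : ∑ p ∈ F ×ˢ (univ : Finset (Fin (r l + 1))), n (Function.update p.1 l p.2) =
      ∑ p ∈ F ×ˢ (univ : Finset (Fin (r l + 1))), n p.1 := by
    refine Finset.sum_bij' (fun p _ => (Function.update p.1 l p.2, p.1 l))
      (fun p _ => (Function.update p.1 l p.2, p.1 l)) (fun p hp => ?_) (fun p hp => ?_)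
      (fun p _ => ?_) (fun p _ => ?_) (fun p _ => rfl)
    · exact mem_product.2 ⟨hF _ (mem_product.1 hp).1 _, mem_univ _⟩
    · exact mem_product.2 ⟨hF _ (mem_product.1 hp).1 _, mem_univ _⟩
    · simp
    · simp
  rw [sum_product, sum_product] at h1
  simp only [h, sum_const_zero, sum_const, card_univ, Fintype.card_fin, nsmul_eq_mul] at h1
  rw [← mul_sum] at h1
  rcases mul_eq_zero.1 h1.symm with h2 | h2
  · exfalso
    have : ((r l + 1 : ℕ) : ℚ) ≠ 0 := Nat.cast_ne_zero.2 (Nat.succ_ne_zero _)
    exact this h2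
  · exact h2

variable (ρ : (l : Fin m) → Fin (r l + 1) → Fin (r l + 1))

/-- The sum of `n` over the class of `T`. -/
def clsum (n : Tup r → ℚ) (T : Tup r) : ℚ :=
  ∑ T' : Tup r with ∀ l, ρ l (T' l) = ρ l (T l), n T'

variable {ρ}

theorem clsum_congr {n : Tup r → ℚ} {T T' : Tup r} (h : ∀ l, ρ l (T l) = ρ l (T' l)) :
    clsum ρ n T = clsum ρ n T' := by
  unfold clsum
  simp only [h]

theorem sum_clsum (hρ : ∀ l a, ρ l (ρ l a) = ρ l a) {n : Tup r → ℚ}
    (h : ∀ l T, ∑ i, n (Function.update T l i) = 0) (T : Tup r) (l : Fin m) :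
    ∑ b ∈ univ.image (ρ l), clsum ρ n (Function.update T l b) = 0 := by
  classical
  have h1 : ∑ T' : Tup r with ∀ l', l' ≠ l → ρ l' (T' l') = ρ l' (T l'), n T' = 0 := by
    refine sum_invariant (h l) _ fun T' hT' i => ?_
    refine mem_filter.2 ⟨mem_univ _, fun l' hl' => ?_⟩
    rw [Function.update_of_ne hl']
    exact (mem_filter.1 hT').2 l' hl'
  rw [← h1]
  unfold clsum
  rw [← sum_fiberwise_of_maps_to (s := univ.filter fun T' : Tup r =>
    ∀ l', l' ≠ l → ρ l' (T' l') = ρ l' (T l')) (t := univ.image (ρ l)) (g := fun T' => ρ l (T' l))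
    (fun T' _ => mem_image_of_mem _ (mem_univ _)) n]
  refine sum_congr rfl fun b hb => ?_
  rw [filter_filter]
  refine sum_congr ?_ fun _ _ => rfl
  obtain ⟨a, -, rfl⟩ := mem_image.1 hb
  ext T'
  simp only [mem_filter, mem_univ, true_and]
  constructor
  · intro h2
    refine ⟨fun l' hl' => ?_, ?_⟩
    · have h3 := h2 l'
      rwa [Function.update_of_ne hl'] at h3
    · have h3 := h2 l
      rwa [Function.update_self, hρ] at h3
  · rintro ⟨h2, h3⟩ l'
    by_cases hl' : l' = l
    · subst hl'
      rw [Function.update_self, hρ, h3]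
    · rw [Function.update_of_ne hl']
      exact h2 l' hl'

theorem clsum_eq_zero (hρ : ∀ l a, ρ l (ρ l a) = ρ l a) {n : Tup r → ℚ}
    (h : ∀ l T, ∑ i, n (Function.update T l i) = 0) {j : Fin m} (hj : ∀ a, ρ j a = a)
    {i : Fin (r j + 1)}
    (hred : ∀ T : Tup r, T j = i → (∀ l, l ≠ j → ρ l (T l) = T l ∧ T l ≠ ρ l 0) →
      clsum ρ n T = 0) :
    ∀ (N : ℕ) (T : Tup r), T j = i →
      (univ.filter fun l => l ≠ j ∧ ρ l (T l) = ρ l 0).card = N → clsum ρ n T = 0 := by
  classical
  intro N
  induction N using Nat.strong_induction_on with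
  | _ N ih =>
    intro T hT hN
    rcases (univ.filter fun l => l ≠ j ∧ ρ l (T l) = ρ l 0).eq_empty_or_nonempty with h0 | ⟨l, hl⟩
    · have h1 : clsum ρ n T = clsum ρ n (fun l => ρ l (T l)) :=
        clsum_congr fun l => (hρ l (T l)).symm
      rw [h1]
      refine hred _ ((hj _).trans hT) fun l hl => ⟨hρ l _, fun h2 => ?_⟩
      have h3 : l ∈ (univ.filter fun l => l ≠ j ∧ ρ l (T l) = ρ l 0) :=
        mem_filter.2 ⟨mem_univ _, hl, h2⟩
      rw [h0] at h3
      exact absurd h3 (notMem_empty _)
    · obtain ⟨-, hlj, hl0⟩ := mem_filter.1 hl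
      have h1 : clsum ρ n T = clsum ρ n (Function.update T l (ρ l 0)) := by
        refine clsum_congr fun l' => ?_
        by_cases hl' : l' = l
        · subst hl'
          rw [Function.update_self, hρ, hl0]
        · rw [Function.update_of_ne hl']
      have h2 := sum_clsum hρ h T l
      rw [← add_sum_erase _ _ (mem_image_of_mem (ρ l) (mem_univ 0))] at h2
      rw [h1]
      have h3 : ∑ b ∈ (univ.image (ρ l)).erase (ρ l 0),
          clsum ρ n (Function.update T l b) = 0 := by
        refine sum_eq_zero fun b hb => ?_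
        obtain ⟨hb0, hb1⟩ := mem_erase.1 hb
        obtain ⟨a, -, rfl⟩ := mem_image.1 hb1
        refine ih _ ?_ (Function.update T l (ρ l a)) ?_ rfl
        · rw [← hN]
          refine card_lt_card ⟨fun l' hl' => ?_, fun hsub => ?_⟩
          · obtain ⟨-, h4, h5⟩ := mem_filter.1 hl'
            by_cases hl'' : l' = l
            · subst hl''
              rw [Function.update_self, hρ] at h5
              exact absurd h5 hb0
            · rw [Function.update_of_ne hl''] at h5
              exact mem_filter.2 ⟨mem_univ _, h4, h5⟩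
          · obtain ⟨-, -, h5⟩ := mem_filter.1 (hsub hl)
            rw [Function.update_self, hρ] at h5
            exact hb0 h5
        · rw [Function.update_of_ne (Ne.symm hlj), hT]
      rw [h3, add_zero] at h2
      exact h2

end sums

section theta

variable {m : ℕ} {r : Fin m → ℕ}

/-- The functions with vanishing sums. -/
def thf (S : (l : Fin m) → Fin (r l)) (T : Tup r) : ℚ :=
  ∏ l, ((if T l = (S l).succ then 1 else 0) - if T l = 0 then 1 else 0)

/-- The parametrization of the functions with vanishing sums. -/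
def tht : (((l : Fin m) → Fin (r l)) → ℚ) →ₗ[ℚ] (Tup r → ℚ) where
  toFun a T := ∑ S, a S * thf S T
  map_add' a b := by
    funext T
    simp [add_mul, sum_add_distrib]
  map_smul' c a := by
    funext T
    simp [mul_assoc, mul_sum]

theorem thf_succ (S S' : (l : Fin m) → Fin (r l)) :
    thf S (fun l => (S' l).succ) = if S = S' then 1 else 0 := by
  unfold thf
  by_cases h : S = S'
  · rw [if_pos h]
    subst h
    refine prod_eq_one fun l _ => ?_
    rw [if_pos rfl, if_neg (Fin.succ_ne_zero _), sub_zero]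
  · rw [if_neg h]
    obtain ⟨l, hl⟩ := Function.ne_iff.1 h
    refine prod_eq_zero (mem_univ l) ?_
    rw [if_neg (fun h' => hl (Fin.succ_injective _ h').symm), if_neg (Fin.succ_ne_zero _), sub_zero]

theorem tht_injective : Function.Injective (tht (r := r)) := by
  rw [← LinearMap.ker_eq_bot, LinearMap.ker_eq_bot']
  intro a ha
  funext S
  have h1 := congrFun ha (fun l => (S l).succ)
  have h2 : tht a (fun l => (S l).succ) = a S := by
    show ∑ S', a S' * thf S' (fun l => (S l).succ) = a S
    simp only [thf_succ, mul_ite, mul_one, mul_zero]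
    rw [sum_ite_eq' univ S, if_pos (mem_univ _)]
  rw [← h2, h1]
  rfl

theorem sum_thf (S : (l : Fin m) → Fin (r l)) (l : Fin m) (T : Tup r) :
    ∑ i, thf S (Function.update T l i) = 0 := by
  unfold thf
  have h1 : ∀ i : Fin (r l + 1),
      ∏ l', (((if Function.update T l i l' = (S l').succ then 1 else 0) -
        if Function.update T l i l' = 0 then 1 else 0 : ℚ)) =
      (((if i = (S l).succ then 1 else 0) - if i = 0 then 1 else 0 : ℚ)) *
        ∏ l' ∈ univ.erase l, (((if T l' = (S l').succ then 1 else 0) -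
          if T l' = 0 then 1 else 0 : ℚ)) := by
    intro i
    rw [← mul_prod_erase univ _ (mem_univ l), Function.update_self]
    congr 1
    refine prod_congr rfl fun l' hl' => ?_
    rw [Function.update_of_ne (ne_of_mem_erase hl')]
  simp only [h1]
  rw [← sum_mul, sum_sub_distrib, sum_ite_eq' univ, sum_ite_eq' univ, if_pos (mem_univ _),
    if_pos (mem_univ _), sub_self, zero_mul]

theorem sum_tht (a : ((l : Fin m) → Fin (r l)) → ℚ) (l : Fin m) (T : Tup r) :
    ∑ i, tht a (Function.update T l i) = 0 := by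
  show ∑ i, ∑ S, a S * thf S (Function.update T l i) = 0
  rw [sum_comm]
  refine sum_eq_zero fun S _ => ?_
  rw [← mul_sum, sum_thf, mul_zero]

theorem finrank_bound {ι : Type} [Fintype ι] (j : ι → Fin m) (I : ι → Tup r)
    (ρ : ι → (l : Fin m) → Fin (r l + 1) → Fin (r l + 1))
    (hρ : ∀ e l a, ρ e l (ρ e l a) = ρ e l a) (hj : ∀ e a, ρ e (j e) a = a)
    (A : Submodule ℚ (Tup r → ℚ))
    (hA : ∀ n : Tup r → ℚ, (∀ l T, ∑ i, n (Function.update T l i) = 0) →
      (∀ e T, T (j e) = I e (j e) → clsum (ρ e) n T = 0) → n ∈ A) :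
    ∏ l, r l ≤ Module.finrank ℚ A +
      ∑ e, ∏ l ∈ univ.erase (j e), ((univ.image (ρ e l)).card - 1) := by
  classical
  set Red : ι → Finset (Tup r) := fun e => Fintype.piFinset fun l =>
    if l = j e then {I e l} else (univ.image (ρ e l)).erase (ρ e l 0) with hRed
  have hmem : ∀ e T, T ∈ Red e ↔ T (j e) = I e (j e) ∧
      ∀ l, l ≠ j e → ρ e l (T l) = T l ∧ T l ≠ ρ e l 0 := by
    intro e T
    rw [hRed]
    simp only [Fintype.mem_piFinset]
    constructor
    · intro h
      refine ⟨?_, fun l hl => ?_⟩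
      · have h1 := h (j e)
        rw [if_pos rfl, mem_singleton] at h1
        exact h1
      · have h1 := h l
        rw [if_neg hl, mem_erase] at h1
        obtain ⟨h2, h3⟩ := h1
        obtain ⟨a, -, ha⟩ := mem_image.1 h3
        exact ⟨by rw [← ha, hρ], h2⟩
    · rintro ⟨h1, h2⟩ l
      by_cases hl : l = j e
      · rw [if_pos hl, mem_singleton]
        subst hl
        exact h1
      · rw [if_neg hl, mem_erase]
        exact ⟨(h2 l hl).2, mem_image.2 ⟨T l, mem_univ _, (h2 l hl).1⟩⟩
  have hcard : ∀ e, (Red e).card = ∏ l ∈ univ.erase (j e), ((univ.image (ρ e l)).card - 1) := by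
    intro e
    rw [hRed]
    simp only [Fintype.card_piFinset]
    rw [← mul_prod_erase univ _ (mem_univ (j e)), if_pos rfl, card_singleton, one_mul]
    refine prod_congr rfl fun l hl => ?_
    rw [if_neg (ne_of_mem_erase hl), card_erase_of_mem (mem_image_of_mem _ (mem_univ _))]
  let Cond : Type := (e : ι) × {T : Tup r // T ∈ Red e}
  let Lm : (((l : Fin m) → Fin (r l)) → ℚ) →ₗ[ℚ] (Cond → ℚ) :=
    { toFun := fun a c => clsum (ρ c.1) (tht a) c.2.1
      map_add' := fun a b => by
        funext c
        simp only [map_add]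
        unfold clsum
        simp only [Pi.add_apply]
        rw [sum_add_distrib]
      map_smul' := fun t a => by
        funext c
        simp only [map_smul]
        unfold clsum
        simp only [Pi.smul_apply, smul_eq_mul, RingHom.id_apply]
        rw [mul_sum] }
  have hLm : ∀ a c, Lm a c = clsum (ρ c.1) (tht a) c.2.1 := fun a c => rfl
  have hker : ∀ a ∈ LinearMap.ker Lm, tht a ∈ A := by
    intro a ha
    refine hA _ (fun l T => sum_tht a l T) fun e T hT => ?_
    refine clsum_eq_zero (hρ e) (fun l T => sum_tht a l T) (hj e) (i := I e (j e))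
      (fun T' hT' hT'' => ?_) _ T hT rfl
    have h1 := congrFun (LinearMap.mem_ker.1 ha) ⟨e, T', (hmem e T').2 ⟨hT', hT''⟩⟩
    rw [hLm] at h1
    exact h1
  have h1 := LinearMap.finrank_range_add_finrank_ker Lm
  have h2 : Module.finrank ℚ (((l : Fin m) → Fin (r l)) → ℚ) = ∏ l, r l := by
    rw [Module.finrank_fintype_fun_eq_card, Fintype.card_pi]
    simp
  have h3 : Module.finrank ℚ (LinearMap.range Lm) ≤ ∑ e, (Red e).card := by
    refine (Submodule.finrank_le _).trans ?_
    rw [Module.finrank_fintype_fun_eq_card]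
    show Fintype.card ((e : ι) × {T : Tup r // T ∈ Red e}) ≤ _
    rw [Fintype.card_sigma]
    simp
  have h4 : Module.finrank ℚ (LinearMap.ker Lm) ≤ Module.finrank ℚ A := by
    let f : LinearMap.ker Lm →ₗ[ℚ] A :=
      (tht.comp (LinearMap.ker Lm).subtype).codRestrict A fun a => hker a.1 a.2
    refine LinearMap.finrank_le_finrank_of_injective (f := f) ?_
    intro a b hab
    have h5 := congrArg Subtype.val hab
    exact Subtype.ext (tht_injective h5)
  rw [h2] at h1
  simp only [hcard] at h3
  omega

end theta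

end Pool.Agent.U374.Tr
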