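import Pool.Agent.U374.Tr.Unr
import Pool.Agent.U374.Tr.Dim
set_option autoImplicit false

/-!
Fibrations `W(z) = λ g ∏_(j,i) (x_j - φ_(j,i)(x_0, ..., x_(j-1))) ^ w_(j,i)` over triangular
arrangements of graphs: definitions.
-/

namespace Pool.Agent.U374.Tr

open Pool.Agent.TH826.MK (KQ symb Unramified Torus)

open Pool.Agent.N65.TL (LP Interior Tame esum)

/-- The data of a family `W(z) = λ g ∏_(j,i) (x_j - φ_(j,i)) ^ w_(j,i)`, `0 ≤ j ≤ d`,
`0 ≤ i ≤ r_j`. -/
structure Arr (K : Type*) [Field K] (s d : ℕ) where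
  /-- the Laurent polynomial `W` in `z_0, ..., z_s` -/
  W : LP K (s + 1)
  /-- the polynomial `g` in `x_0, ..., x_d` -/
  g : MvPolynomial (Fin (d + 1)) K
  /-- the numbers `r_j` -/
  r : Fin (d + 1) → ℕ
  /-- the polynomials `φ_(j,i)` -/
  φ : (j : Fin (d + 1)) → Fin (r j + 1) → MvPolynomial (Fin (d + 1)) K
  /-- the exponents `w_(j,i)`, which may be zero -/
  w : (j : Fin (d + 1)) → Fin (r j + 1) → ℕ

namespace Arr

variable {K : Type*} [Field K] {s d : ℕ} (A : Arr K s d)

/-- The conditions on the family. -/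
structure Admissible (A : Arr K s d) : Prop where
  /-- the origin is an interior point of the Newton polytope of `W` -/
  interior : Interior A.W
  /-- `W` divides a product of polynomials of simplex type -/
  tame : Tame A.W
  /-- `g` is not zero -/
  g_ne : A.g ≠ 0
  /-- `g` has integral coefficients -/
  g_int : ∀ k, IsIntegral ℤ (A.g.coeff k)
  /-- the `φ_(j,i)` have integral coefficients -/
  phi_int : ∀ j i k, IsIntegral ℤ ((A.φ j i).coeff k)
  /-- `φ_(j,i)` is a polynomial in `x_0, ..., x_(j-1)` -/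
  phi_vars : ∀ j i, ∀ l ∈ (A.φ j i).vars, l < j
  /-- for every `j` the polynomials `φ_(j,i)` are different -/
  distinct : ∀ j, Function.Injective (A.φ j)

/-- The pairs `(j, i)`. -/
abbrev Ix : Type := (j : Fin (d + 1)) × Fin (A.r j + 1)

/-- The polynomial `P_(j,i) = x_j - φ_(j,i)`. -/
noncomputable def P (e : A.Ix) : MvPolynomial (Fin (d + 1)) K :=
  MvPolynomial.X e.1 - A.φ e.1 e.2

/-- The polynomial `g ∏ P_(j,i) ^ w_(j,i)`. -/
noncomputable def Phi0 : MvPolynomial (Fin (d + 1)) K := A.g * ∏ e : A.Ix, A.P e ^ A.w e.1 e.2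

/-- The polynomial `Φ = λ g ∏ P_(j,i) ^ w_(j,i)`. -/
noncomputable def Phi (lam : K) : MvPolynomial (Fin (d + 1)) K := MvPolynomial.C lam * A.Phi0

/-- The polynomial `λ g ∏ P_(j,i)`. -/
noncomputable def Psi (lam : K) : MvPolynomial (Fin (d + 1)) K :=
  MvPolynomial.C lam * (A.g * ∏ e : A.Ix, A.P e)

/-- The coordinate ring of the open part of the hypersurface `W(z) = Φ(x)`, `z_i ≠ 0`, on which `g`
and the `P_(j,i)` do not vanish. -/
def Open (lam : K) : Type _ := QOpen A.W (A.Phi lam) (A.Psi lam)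

noncomputable instance (lam : K) : CommRing (A.Open lam) :=
  instCommRingQOpen A.W (A.Phi lam) (A.Psi lam)

/-- The constants as functions on the open part. -/
noncomputable def cst (lam : K) : K →+* A.Open lam := qcst A.W (A.Phi lam) (A.Psi lam)

theorem P_dvd (lam : K) (e : A.Ix) : A.P e ∣ A.Psi lam :=
  Dvd.dvd.mul_left (Dvd.dvd.mul_left (Finset.dvd_prod_of_mem _ (Finset.mem_univ e)) _) _

/-- The units `z_i`. -/
noncomputable def z (lam : K) (i : Fin (s + 1)) : (A.Open lam)ˣ :=
  qz A.W (A.Phi lam) (A.Psi lam) i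

/-- The units `P_(j,i)`. -/
noncomputable def L (lam : K) (e : A.Ix) : (A.Open lam)ˣ :=
  qdiv A.W (A.Phi lam) (A.P_dvd lam e)

/-- The symbol `{z_0, ..., z_s, P_(0,T_0), ..., P_(d,T_d)}` in the Milnor K-theory of the open
part. -/
noncomputable def sym (lam : K) (T : Tup A.r) : KQ (A.Open lam) (s + (d + 1) + 1) :=
  symb fun l => Sum.elim (A.z lam) (fun j => A.L lam ⟨j, T j⟩) ((esum s d).symm l)

/-- The class `∑_T n_T {z_0, ..., z_s, P_(0,T_0), ..., P_(d,T_d)}`. -/
noncomputable def cl (lam : K) (n : Tup A.r → ℚ) : KQ (A.Open lam) (s + (d + 1) + 1) :=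
  ∑ T, n T • A.sym lam T

/-- The restriction of polynomials to the graph `x_j = φ_(j,i)`. -/
noncomputable def res (e : A.Ix) (p : MvPolynomial (Fin (d + 1)) K) :
    MvPolynomial (Fin (d + 1)) K :=
  MvPolynomial.bind₁ (Function.update MvPolynomial.X e.1 (A.φ e.1 e.2)) p

/-- `T'_l = T_l` for `l ≤ j`, and for `l > j` the polynomials `φ_(l,T'_l)` and `φ_(l,T_l)` agree on
the graph `x_j = φ_(j,T_j)`. -/
def Near (j : Fin (d + 1)) (T T' : Tup A.r) : Prop :=
  (∀ l, l ≤ j → T' l = T l) ∧
    ∀ l, j < l → A.res ⟨j, T j⟩ (A.φ l (T' l)) = A.res ⟨j, T j⟩ (A.φ l (T l))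

open Classical in
/-- The space of the functions `n` on the tuples such that the sums over the indices of every level
`j` vanish, and for every `(j, T_j)` with exponent `w_(j,T_j) = 0` the sum of the `n_(T')` over all
`T'` near `T` vanishes. -/
noncomputable def Adm : Submodule ℚ (Tup A.r → ℚ) where
  carrier := {n | (∀ j T, ∑ i, n (Function.update T j i) = 0) ∧
    ∀ j T, A.w j (T j) = 0 → ∑ T' with A.Near j T T', n T' = 0}
  add_mem' := by
    rintro n n' ⟨h1, h2⟩ ⟨h1', h2'⟩
    refine ⟨fun j T => ?_, fun j T hw => ?_⟩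
    · simp only [Pi.add_apply, Finset.sum_add_distrib, h1, h1', add_zero]
    · simp only [Pi.add_apply, Finset.sum_add_distrib, h2 j T hw, h2' j T hw, add_zero]
  zero_mem' := ⟨fun j T => Finset.sum_const_zero, fun j T _ => Finset.sum_const_zero⟩
  smul_mem' := by
    rintro c n ⟨h1, h2⟩
    refine ⟨fun j T => ?_, fun j T hw => ?_⟩
    · simp only [Pi.smul_apply, smul_eq_mul, ← Finset.mul_sum, h1, mul_zero]
    · simp only [Pi.smul_apply, smul_eq_mul, ← Finset.mul_sum, h2 j T hw, mul_zero]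

open Classical in
/-- The number `c_l(j,i)` of different polynomials among the `φ_(l,i')` on the graph
`x_j = φ_(j,i)`. -/
noncomputable def cnt (e : A.Ix) (l : Fin (d + 1)) : ℕ :=
  (Finset.univ.image fun i' => A.res e (A.φ l i')).card

/-- The classes with coefficients in `Adm` have unramified images in the Milnor K-theory of all
fields `L` with a homomorphism from the coordinate ring of the open part. -/
def Unram.{u, v} {K : Type u} [Field K] {s d : ℕ} (A : Arr K s d) (lam : K) : Prop :=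
  ∀ n ∈ A.Adm, ∀ (L : Type v) [Field L] (f : A.Open lam →+* L),
    KQ.map _ f (A.cl lam n) ∈ Unramified L _

/-- There are tori `Γ_T` over `σ`, one for each tuple, such that the determinant of the regulators
of the symbols of the `T'` on the tori `Γ_T` does not vanish. -/
def Indep (σ : K →+* ℂ) (lam : K) : Prop :=
  ∃ Γ : Tup A.r → Torus (A.Open lam) (s + (d + 1)),
    (∀ T θ (x : K), (Γ T).e θ (A.cst lam x) = σ x) ∧
    (Matrix.of fun T T' : Tup A.r => (Γ T).reg (A.sym lam T')).det ≠ 0

end Arr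

end Pool.Agent.U374.Tr
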