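import Pool.Agent.U374.Tr.Exp
import Pool.Agent.U374.Tr.Tor
set_option autoImplicit false

/-!
Triangular changes of coordinates `x_j = t_j + φ_j(x_0, ..., x_(j-1))`, and the charts at the vertices
of the triangular arrangements.
-/

namespace Pool.Agent.U374.Tr

open MvPolynomial

open Pool.Agent.TH577.UA (mmon contDiff_mmon)

section coord

variable {K : Type*} [Field K] {n : ℕ} (φ : Fin n → MvPolynomial (Fin n) K)

/-- The iterates of the substitution. -/
noncomputable def psit : ℕ → Fin n → MvPolynomial (Fin n) K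
  | 0 => X
  | k + 1 => fun j => X j + bind₁ (psit k) (φ j)

/-- The coordinates `x_j` as polynomials in the `t_j`. -/
noncomputable def psi : Fin n → MvPolynomial (Fin n) K := psit φ n

variable {φ}

/-- The polynomial `φ_j` involves only the variables `x_l` with `l < j`. -/
def Tri (φ : Fin n → MvPolynomial (Fin n) K) : Prop := ∀ j, ∀ l ∈ (φ j).vars, l < j

theorem psit_eq (h : Tri φ) : ∀ (k : ℕ) (j : Fin n), (j : ℕ) < k → psit φ (k + 1) j = psit φ k j := by
  intro k
  induction k with
  | zero => exact fun j hj => absurd hj (Nat.not_lt_zero _)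
  | succ k ih =>
    intro j hj
    show X j + bind₁ (psit φ (k + 1)) (φ j) = X j + bind₁ (psit φ k) (φ j)
    congr 1
    refine eval₂Hom_congr' rfl (fun l hl _ => ih l ?_) rfl
    have h1 : (l : ℕ) < j := h j l hl
    omega

theorem psi_eq (h : Tri φ) (j : Fin n) : psi φ j = X j + bind₁ (psi φ) (φ j) := by
  have h1 := psit_eq h n j j.isLt
  exact h1.symm

theorem bind_psi (h : Tri φ) (j : Fin n) : bind₁ (psi φ) (X j - φ j) = X j := by
  rw [map_sub, bind₁_X_right, psi_eq h, add_sub_cancel_right]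

theorem vars_psit (h : Tri φ) : ∀ (k : ℕ) (j : Fin n), ∀ l ∈ (psit φ k j).vars, l ≤ j := by
  classical
  intro k
  induction k with
  | zero =>
    intro j l hl
    have h1 : l ∈ (X j : MvPolynomial (Fin n) K).vars := hl
    rw [vars_X, Finset.mem_singleton] at h1
    exact h1.le
  | succ k ih =>
    intro j l hl
    have h1 : l ∈ (X j + bind₁ (psit φ k) (φ j)).vars := hl
    rcases Finset.mem_union.1 (vars_add_subset _ _ h1) with h2 | h2
    · rw [vars_X, Finset.mem_singleton] at h2
      exact h2.le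
    · obtain ⟨i, hi, hi'⟩ := Finset.mem_biUnion.1 (vars_bind₁ _ _ h2)
      exact (ih i l hi').trans (h j i hi).le

theorem vars_bind_psi (h : Tri φ) {p : MvPolynomial (Fin n) K} {j : Fin n}
    (hp : ∀ l ∈ p.vars, l < j) : ∀ l ∈ (bind₁ (psi φ) p).vars, l < j := by
  classical
  intro l hl
  obtain ⟨i, hi, hi'⟩ := Finset.mem_biUnion.1 (vars_bind₁ _ _ hl)
  exact (vars_psit h n i l hi').trans_lt (hp i hi)

theorem psi_injective (h : Tri φ) : Function.Injective (bind₁ (psi φ)) := by
  have hx : ∀ (k : ℕ) (j : Fin n), (j : ℕ) = k → bind₁ (fun j => X j - φ j) (psi φ j) = X j := by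
    intro k
    induction k using Nat.strong_induction_on with
    | _ k ih =>
      intro j hj
      rw [psi_eq h, map_add, bind₁_X_right, bind₁_bind₁]
      have h1 : bind₁ (fun i => bind₁ (fun j => X j - φ j) (psi φ i)) (φ j) = φ j := by
        have h2 : bind₁ (fun i => bind₁ (fun j => X j - φ j) (psi φ i)) (φ j) =
            bind₁ (X : Fin n → MvPolynomial (Fin n) K) (φ j) := by
          refine eval₂Hom_congr' rfl (fun l hl _ => ih l ?_ l rfl) rfl
          have h3 : (l : ℕ) < j := h j l hl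
          omega
        rw [h2, bind₁_X_left]
        rfl
      rw [h1, sub_add_cancel]
  intro p q hpq
  have h1 : ∀ p : MvPolynomial (Fin n) K,
      bind₁ (fun j => X j - φ j) (bind₁ (psi φ) p) = p := by
    intro p
    rw [bind₁_bind₁]
    have h2 : (fun i => bind₁ (fun j => X j - φ j) (psi φ i)) = X := by
      funext j
      exact hx j j rfl
    rw [h2, bind₁_X_left]
    rfl
  rw [← h1 p, ← h1 q, hpq]

end coord

section chart

variable {K : Type*} [Field K] {d : ℕ} {r : Fin (d + 1) → ℕ}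

/-- The polynomials `x_j - φ_(j,i)`. -/
noncomputable def gr (φ : (j : Fin (d + 1)) → Fin (r j + 1) → MvPolynomial (Fin (d + 1)) K)
    (e : (j : Fin (d + 1)) × Fin (r j + 1)) : MvPolynomial (Fin (d + 1)) K := X e.1 - φ e.1 e.2

variable {φ : (j : Fin (d + 1)) → Fin (r j + 1) → MvPolynomial (Fin (d + 1)) K}

theorem gr_ne (hφ : ∀ j i, ∀ l ∈ (φ j i).vars, l < j) (e : (j : Fin (d + 1)) × Fin (r j + 1)) :
    gr φ e ≠ 0 := by
  classical
  intro h0
  have h1 : (X e.1 : MvPolynomial (Fin (d + 1)) K) = φ e.1 e.2 := sub_eq_zero.1 h0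
  have h2 : e.1 ∈ (φ e.1 e.2).vars := by
    rw [← h1, vars_X]
    exact Finset.mem_singleton_self _
  exact absurd (hφ _ _ _ h2) (lt_irrefl _)

/-- The chart at a vertex of the arrangement. -/
theorem exists_chart (σ : K →+* ℂ) (hφ : ∀ j i, ∀ l ∈ (φ j i).vars, l < j)
    (hd : ∀ j, Function.Injective (φ j)) {Φ0 : MvPolynomial (Fin (d + 1)) K} (hΦ0 : Φ0 ≠ 0)
    (T : ∀ j, Fin (r j + 1)) :
    ∃ Ch : Chart σ Φ0 (gr φ), (∀ j, Ch.μ ⟨j, T j⟩ j = 1) ∧
      (∀ j l, j < l → Ch.μ ⟨j, T j⟩ l = 0) ∧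
      ∀ j i, i ≠ T j → ∀ l, j ≤ l → Ch.μ ⟨j, i⟩ l = 0 := by
  classical
  set ψ : Fin (d + 1) → MvPolynomial (Fin (d + 1)) K := psi fun j => φ j (T j) with hψ
  have hT : Tri fun j => φ j (T j) := fun j => hφ j (T j)
  have hne : ∀ p : MvPolynomial (Fin (d + 1)) K, p ≠ 0 → bind₁ ψ p ≠ 0 := fun p hp h0 =>
    hp (psi_injective hT (by rw [h0, map_zero]))
  set M : ℕ := (bind₁ ψ Φ0).totalDegree + (∑ e, (bind₁ ψ (gr φ e)).totalDegree) + 1 with hM
  have hdeg : ∀ (p : MvPolynomial (Fin (d + 1)) K), p.totalDegree < M →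
      ∀ m ∈ p.support, ∀ j, m j < M := by
    intro p hp m hm j
    have h1 : (m.sum fun _ k => k) ≤ p.totalDegree := le_totalDegree hm
    have h2 : m j ≤ m.sum fun _ k => k := by
      by_cases hj : j ∈ m.support
      · exact Finset.single_le_sum (f := fun i => m i) (fun i _ => Nat.zero_le _) hj
      · rw [Finsupp.notMem_support_iff.1 hj]
        exact Nat.zero_le _
    omega
  have hM0 : (bind₁ ψ Φ0).totalDegree < M := by omega
  have hMe : ∀ e, (bind₁ ψ (gr φ e)).totalDegree < M := by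
    intro e
    have h1 : (bind₁ ψ (gr φ e)).totalDegree ≤ ∑ e, (bind₁ ψ (gr φ e)).totalDegree :=
      Finset.single_le_sum (f := fun e => (bind₁ ψ (gr φ e)).totalDegree)
        (fun e _ => Nat.zero_le _) (Finset.mem_univ e)
    omega
  obtain ⟨m0, -, -, h0, h0c, h0n, h0e⟩ := exists_fac σ (hne Φ0 hΦ0) (hdeg _ hM0)
  choose m hm hmin h hc hn he using fun e => exists_fac σ (hne _ (gr_ne hφ e)) (hdeg _ (hMe e))
  have hev : ∀ (y : (Fin d → ℂ) × ℂ) (p : MvPolynomial (Fin (d + 1)) K),
      eval₂ σ (fun j => eval₂ σ (tm M y) (ψ j)) p = eval₂ σ (tm M y) (bind₁ ψ p) := by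
    intro y p
    exact (eval₂Hom_bind₁ σ (tm M y) ψ p).symm
  have hX : ∀ p : MvPolynomial (Fin (d + 1)) K,
      ContDiff ℂ 2 fun y : (Fin d → ℂ) × ℂ => eval₂ σ (tm M y) p := by
    intro p
    have e : (fun y : (Fin d → ℂ) × ℂ => eval₂ σ (tm M y) p) = fun y => ∑ m ∈ p.support,
        σ (p.coeff m) * mmon (fun l : Fin (d + 1) => SS M m l) y := funext fun y => eval_tm σ M p y
    rw [e]
    exact ContDiff.sum fun m _ => contDiff_const.mul (contDiff_mmon _)
  refine ⟨{ X := fun y j => eval₂ σ (tm M y) (ψ j)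
            X_smooth := contDiff_pi.2 fun j => hX (ψ j)
            μ0 := fun l => SS M m0 l
            h0 := h0
            h0_smooth := h0c
            h0_ne := h0n
            h0_eq := fun y => (hev y Φ0).trans (h0e y)
            μ := fun e l => SS M (m e) l
            h := h
            h_smooth := hc
            h_ne := hn
            h_eq := fun e y => (hev y (gr φ e)).trans (he e y) }, fun j => ?_, fun j l hl => ?_,
            fun j i hi l hl => ?_⟩
  · -- the polynomial `t_j`
    have h1 : bind₁ ψ (gr φ ⟨j, T j⟩) = X j := bind_psi hT j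
    have h2 : m ⟨j, T j⟩ = Finsupp.single j 1 := by
      have h3 := hm ⟨j, T j⟩
      rw [h1, support_X, Finset.mem_singleton] at h3
      exact h3
    show SS M (m ⟨j, T j⟩) j = 1
    rw [h2]
    unfold SS
    rw [Finset.sum_eq_single j]
    · rw [Finsupp.single_eq_same, ex_self]
    · intro b _ hb
      rw [Finsupp.single_eq_of_ne hb, zero_mul]
    · intro h
      exact absurd (Finset.mem_univ _) h
  · have h1 : bind₁ ψ (gr φ ⟨j, T j⟩) = X j := bind_psi hT j
    have h2 : m ⟨j, T j⟩ = Finsupp.single j 1 := by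
      have h3 := hm ⟨j, T j⟩
      rw [h1, support_X, Finset.mem_singleton] at h3
      exact h3
    show SS M (m ⟨j, T j⟩) l = 0
    rw [h2]
    refine SS_eq_zero (j := l) (fun i hi => ?_) le_rfl
    refine Finsupp.single_eq_of_ne fun h => ?_
    have h4 : (j : ℕ) < l := hl
    have h5 : (l : ℕ) ≤ i := hi
    rw [h] at h5
    omega
  · -- the other graphs
    set q : MvPolynomial (Fin (d + 1)) K := bind₁ ψ (φ j (T j) - φ j i) with hq
    have hq0 : q ≠ 0 := by
      refine hne _ (sub_ne_zero.2 fun h => hi ?_)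
      exact (hd j h).symm
    have hqv : ∀ l ∈ q.vars, l < j := by
      refine vars_bind_psi hT (fun l hl => ?_)
      rcases Finset.mem_union.1 ((vars_sub_subset (p := φ j (T j)) (q := φ j i)) hl) with h1 | h1
      · exact hφ _ _ _ h1
      · exact hφ _ _ _ h1
    have h1 : bind₁ ψ (gr φ ⟨j, i⟩) = X j + q := by
      have h2 : gr φ ⟨j, i⟩ = (X j - φ j (T j)) + (φ j (T j) - φ j i) := by
        unfold gr
        ring
      have h3 : bind₁ ψ (X j - φ j (T j)) = X j := bind_psi hT j
      rw [h2, map_add, h3]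
    obtain ⟨m', hm'⟩ := support_nonempty.2 hq0
    have hz : ∀ i : Fin (d + 1), (j : ℕ) ≤ i → m' i = 0 := fun i hi =>
      mem_support_notMem_vars_zero hm' fun h => absurd (hqv i h) (not_lt.2 hi)
    have hm'' : m' ∈ (bind₁ ψ (gr φ ⟨j, i⟩)).support := by
      rw [h1, mem_support_iff, coeff_add, coeff_X, if_neg, zero_add]
      · exact mem_support_iff.1 hm'
      · intro h
        have h2 := hz j le_rfl
        rw [← h, Finsupp.single_eq_same] at h2
        exact one_ne_zero h2
    have h2 := hmin ⟨j, i⟩ m' hm'' l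
    have h3 : SS M m' l = 0 := SS_eq_zero hz (show (j : ℕ) ≤ l from hl)
    show SS M (m ⟨j, i⟩) l = 0
    omega

end chart

end Pool.Agent.U374.Tr
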