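import Pool.Agent.N65.TL.Ring
set_option autoImplicit false

/-!
The coordinate rings of the open parts `Ψ ≠ 0` of the hypersurfaces `W(z) = Φ(x)`, units and
evaluation at complex points.
-/

namespace Pool.Agent.U374.Tr

open Pool.Agent.TH826.MK

open Pool.Agent.N65.TL

section ring

variable {K : Type*} [Field K] {s d : ℕ}

variable (W : LP K (s + 1)) (Φ Ψ : MvPolynomial (Fin (d + 1)) K)

/-- The coordinate ring of the open part `Ψ ≠ 0` of the hypersurface `W(z) = Φ(x)`. -/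
def QOpen : Type _ := Localization.Away (fmk W Φ (tpol s Ψ))

noncomputable instance : CommRing (QOpen W Φ Ψ) := OreLocalization.instCommRing

/-- The restriction of functions to the open part. -/
noncomputable def qto : FRing W Φ →+* QOpen W Φ Ψ :=
  algebraMap (FRing W Φ) (Localization.Away (fmk W Φ (tpol s Ψ)))

/-- The restriction of functions to the open part. -/
noncomputable def qlau : TRing K s d →+* QOpen W Φ Ψ := (qto W Φ Ψ).comp (fmk W Φ)

/-- The polynomials in `x` as functions on the open part. -/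
noncomputable def qx : MvPolynomial (Fin (d + 1)) K →+* QOpen W Φ Ψ :=
  (qlau W Φ Ψ).comp (tpol s)

/-- The constants as functions on the open part. -/
noncomputable def qcst : K →+* QOpen W Φ Ψ := (qx W Φ Ψ).comp MvPolynomial.C

/-- The units `z_i` of the coordinate ring of the open part. -/
noncomputable def qz (i : Fin (s + 1)) : (QOpen W Φ Ψ)ˣ :=
  Units.map (qlau W Φ Ψ : TRing K s d →* QOpen W Φ Ψ) (tz K d i)

theorem isUnit_qx : IsUnit (qx W Φ Ψ Ψ) :=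
  IsLocalization.map_units (Localization.Away (fmk W Φ (tpol s Ψ)))
    (⟨fmk W Φ (tpol s Ψ), Submonoid.mem_powers _⟩ : Submonoid.powers (fmk W Φ (tpol s Ψ)))

variable {Ψ} in
/-- The divisors of `Ψ` are units on the open part. -/
noncomputable def qdiv {p : MvPolynomial (Fin (d + 1)) K} (h : p ∣ Ψ) : (QOpen W Φ Ψ)ˣ :=
  (isUnit_of_dvd_unit (map_dvd (qx W Φ Ψ) h) (isUnit_qx W Φ Ψ)).unit

variable {Ψ} in
theorem coe_qdiv {p : MvPolynomial (Fin (d + 1)) K} (h : p ∣ Ψ) :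
    (qdiv W Φ h : QOpen W Φ Ψ) = qx W Φ Ψ p := rfl

/-- the equation on the open part -/
theorem qlau_eq {L : Type*} [CommRing L] (f : QOpen W Φ Ψ →+* L) :
    lev (f.comp (qcst W Φ Ψ)) (fun i => Units.map (f : QOpen W Φ Ψ →* L) (qz W Φ Ψ i)) W =
      f (qx W Φ Ψ Φ) := by
  have h0 : qlau W Φ Ψ (feqn W Φ) = 0 := by
    unfold qlau
    rw [RingHom.comp_apply, fmk_feqn, map_zero]
  have h2 : qlau W Φ Ψ (tlau d W) = qlau W Φ Ψ (tpol s Φ) := by
    rw [← sub_eq_zero, ← map_sub]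
    exact h0
  have h1 : f (qlau W Φ Ψ (tlau d W)) = f (qx W Φ Ψ Φ) := congrArg f h2
  rw [← h1]
  have h3 : f (qlau W Φ Ψ (tlau d W)) = _ := hom_eq_lev (R := MvPolynomial (Fin (d + 1)) K)
    (f.comp (qlau W Φ Ψ)) (AddMonoidAlgebra.mapRingHom (Fin (s + 1) → ℤ) MvPolynomial.C W)
  rw [h3, lev_map]
  rfl

end ring

section points

variable {K : Type*} [Field K] {s d : ℕ} {W : LP K (s + 1)}
  {Φ Ψ : MvPolynomial (Fin (d + 1)) K} {σ : K →+* ℂ}

/-- The complex points of the open part. -/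
structure QPt (σ : K →+* ℂ) (W : LP K (s + 1)) (Φ Ψ : MvPolynomial (Fin (d + 1)) K)
    (x : Fin (d + 1) → ℂ) (z : Fin (s + 1) → ℂ) : Prop extends FPt σ W Φ x z where
  psi : MvPolynomial.eval₂ σ x Ψ ≠ 0

variable {x : Fin (d + 1) → ℂ} {z : Fin (s + 1) → ℂ}

theorem QPt.isUnit (h : QPt σ W Φ Ψ x z) : IsUnit (h.toFPt.evB (fmk W Φ (tpol s Ψ))) := by
  rw [FPt.evB_mk, FPt.ev0_tpol]
  exact IsUnit.mk0 _ h.psi

/-- evaluation on the open part -/
noncomputable def QPt.ev (h : QPt σ W Φ Ψ x z) : QOpen W Φ Ψ →+* ℂ :=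
  IsLocalization.Away.lift (S := Localization.Away (fmk W Φ (tpol s Ψ)))
    (fmk W Φ (tpol s Ψ)) h.isUnit

theorem QPt.ev_alg (h : QPt σ W Φ Ψ x z) (b : FRing W Φ) :
    h.ev (qto W Φ Ψ b) = h.toFPt.evB b :=
  IsLocalization.Away.lift_eq (S := Localization.Away (fmk W Φ (tpol s Ψ))) _ _ _

theorem QPt.ev_qlau (h : QPt σ W Φ Ψ x z) (P : TRing K s d) :
    h.ev (qlau W Φ Ψ P) = h.toFPt.ev0 P := by
  unfold qlau
  rw [RingHom.comp_apply, h.ev_alg, FPt.evB_mk]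

theorem QPt.ev_qx (h : QPt σ W Φ Ψ x z) (p : MvPolynomial (Fin (d + 1)) K) :
    h.ev (qx W Φ Ψ p) = MvPolynomial.eval₂ σ x p := by
  unfold qx
  rw [RingHom.comp_apply, h.ev_qlau, FPt.ev0_tpol]

theorem QPt.ev_qcst (h : QPt σ W Φ Ψ x z) (u : K) : h.ev (qcst W Φ Ψ u) = σ u := by
  unfold qcst
  rw [RingHom.comp_apply, h.ev_qx, MvPolynomial.eval₂_C]

theorem QPt.ev_qz (h : QPt σ W Φ Ψ x z) (i : Fin (s + 1)) :
    h.ev (qz W Φ Ψ i : QOpen W Φ Ψ) = z i := by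
  show h.ev (qlau W Φ Ψ (tz K d i : TRing K s d)) = _
  rw [h.ev_qlau]
  refine (lev_single _ _ (Pi.single i 1) 1).trans ?_
  rw [map_one, one_mul, mon_single, Units.val_mk0]

theorem QPt.congr {x' : Fin (d + 1) → ℂ} {z' : Fin (s + 1) → ℂ} (h : QPt σ W Φ Ψ x z)
    (h' : QPt σ W Φ Ψ x' z') (hx : x = x') (hz : z = z') : h.ev = h'.ev := by
  subst hx
  subst hz
  rfl

variable {D : ℕ} {X : (Fin D → ℝ) → Fin (d + 1) → ℂ} {Z : Fin (s + 1) → (Fin D → ℝ) → ℂ}

theorem contDiff_ev (hX : ContDiff ℝ 2 X) (hZ : ∀ i, Good (Z i))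
    (h : ∀ θ, QPt σ W Φ Ψ (X θ) fun i => Z i θ) (b : QOpen W Φ Ψ) :
    ContDiff ℝ 2 fun θ => (h θ).ev b := by
  have hxk : ∀ k, ContDiff ℝ 2 fun θ => X θ k := fun k => contDiff_pi.1 hX k
  have hmv : ∀ p : MvPolynomial (Fin (d + 1)) K,
      ContDiff ℝ 2 fun θ => MvPolynomial.eval₂ σ (X θ) p := by
    intro p
    induction p using MvPolynomial.induction_on with
    | C c => simpa using contDiff_const
    | add p q hp hq => simpa using hp.add hq
    | mul_X p k hp => simpa using hp.mul (hxk k)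
  have hB : ∀ b : FRing W Φ, ContDiff ℝ 2 fun θ => (h θ).toFPt.evB b := by
    intro b
    obtain ⟨P, rfl⟩ : ∃ P : LP (MvPolynomial (Fin (d + 1)) K) (s + 1),
      fmk W Φ (P : TRing K s d) = b := Ideal.Quotient.mk_surjective b
    have e : (fun θ => (h θ).toFPt.evB (fmk W Φ (P : TRing K s d))) = fun θ =>
        ∑ m ∈ P.coeff.support, MvPolynomial.eval₂ σ (X θ) (P.coeff m) *
          ∏ i, Z i θ ^ (m i) := by
      funext θ
      exact ((h θ).toFPt.evB_mk _).trans ((h θ).toFPt.ev0_eq P)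
    rw [e]
    exact ContDiff.sum fun m _ => (hmv _).mul (contDiff_prod fun i _ => contDiff_zpow' (hZ i) _)
  obtain ⟨k, a, hk⟩ : ∃ (k : ℕ) (a : FRing W Φ), b * qto W Φ Ψ (fmk W Φ (tpol s Ψ)) ^ k =
      qto W Φ Ψ a :=
    IsLocalization.Away.surj (S := Localization.Away (fmk W Φ (tpol s Ψ)))
      (fmk W Φ (tpol s Ψ)) b
  have hne : ∀ θ, (h θ).toFPt.evB (fmk W Φ (tpol s Ψ)) ≠ 0 := fun θ => (h θ).isUnit.ne_zero
  have e : (fun θ => (h θ).ev b) = fun θ => (h θ).toFPt.evB a *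
      (((h θ).toFPt.evB (fmk W Φ (tpol s Ψ))) ^ k)⁻¹ := by
    funext θ
    have h1 := congrArg (h θ).ev hk
    rw [map_mul, (h θ).ev_alg, map_pow, (h θ).ev_alg] at h1
    rw [← h1, mul_assoc, mul_inv_cancel₀ (pow_ne_zero _ (hne θ)), mul_one]
  rw [e]
  exact (hB a).mul (((hB _).pow k).inv fun θ => pow_ne_zero _ (hne θ))

/-- a torus in the open part -/
noncomputable def mkQ (hX : ContDiff ℝ 2 X) (hZ : ∀ i, Good (Z i))
    (h : ∀ θ, QPt σ W Φ Ψ (X θ) fun i => Z i θ) (hXp : ∀ θ j, X (θ + Pi.single j 1) = X θ)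
    (hZp : ∀ i, Per (Z i)) : Torus (QOpen W Φ Ψ) D where
  e θ := (h θ).ev
  smooth b := contDiff_ev hX hZ h b
  periodic θ j := QPt.congr _ _ (hXp θ j) (funext fun i => hZp i θ j)

end points

end Pool.Agent.U374.Tr
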