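import Pool.Agent.U374.Tr.Coord
set_option autoImplicit false

/-!
Valuations of polynomials with integral coefficients, and of the units `z_i` of the hypersurfaces
`W(z) = Φ(x)`.
-/

namespace Pool.Agent.U374.Tr

open scoped WithZero

open Pool.Agent.TH826.MK

open Pool.Agent.TH577.UA (mem_unitPart_of_block)

open Pool.Agent.N65.TL

section gen

variable {K : Type*} [Field K] {s d : ℕ}

/-- Polynomials with integral coefficients at points whose coordinates are integral. -/
theorem val_le {n : ℕ} {g : MvPolynomial (Fin n) K} {L : Type*} [Field L]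
    (F : MvPolynomial (Fin n) K →+* L) (v : Valuation L ℤᵐ⁰)
    (hg : ∀ k, IsIntegral ℤ (g.coeff k)) (hx : ∀ j ∈ g.vars, v (F (MvPolynomial.X j)) ≤ 1) :
    v (F g) ≤ 1 := by
  have hc : ∀ x : K, IsIntegral ℤ x → v (F (MvPolynomial.C x)) ≤ 1 := fun x hx =>
    Pool.Agent.TH826.MK.val_le_one_of_integral v
      (map_isIntegral_int (F.comp MvPolynomial.C) hx)
  have e : F g = ∑ k ∈ g.support, F (MvPolynomial.C (g.coeff k)) *
      ∏ j, F (MvPolynomial.X j) ^ k j := by
    have h1 : F g = MvPolynomial.eval₂ (F.comp MvPolynomial.C) (fun j => F (MvPolynomial.X j)) g := by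
      have h2 : F = MvPolynomial.eval₂Hom (F.comp MvPolynomial.C)
          (fun j => F (MvPolynomial.X j)) := by
        refine MvPolynomial.ringHom_ext (fun x => ?_) fun j => ?_
        · simp only [MvPolynomial.coe_eval₂Hom, MvPolynomial.eval₂_C]
          rfl
        · simp only [MvPolynomial.coe_eval₂Hom, MvPolynomial.eval₂_X]
      exact congrArg (fun F : MvPolynomial (Fin n) K →+* L => F g) h2
    rw [h1, MvPolynomial.eval₂_eq']
    rfl
  rw [e]
  refine Valuation.map_sum_le v fun k hk => ?_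
  rw [map_mul, map_prod]
  refine mul_le_one' (hc _ (hg k)) (Finset.prod_le_one' fun j _ => ?_)
  rw [map_pow]
  by_cases hj : j ∈ g.vars
  · exact pow_le_one' (hx j hj) _
  · rw [MvPolynomial.mem_support_notMem_vars_zero hk hj, pow_zero]

variable {W : LP K (s + 1)} {Φ Ψ : MvPolynomial (Fin (d + 1)) K}

/-- If `Φ` is integral, either all symbols which contain the entries `z_i` lie in the unit part, or
the `z_i` and `Φ` are units. -/
theorem tame_or_unit (hWint : Interior W) (hWt : Tame W) {L : Type*} [Field L]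
    (f : QOpen W Φ Ψ →+* L) (v : Valuation L ℤᵐ⁰) (hP1 : v (f (qx W Φ Ψ Φ)) ≤ 1) :
    (∀ (N : ℕ) (A : Fin N → Lˣ) (p : Fin (s + 1) → Fin N), Function.Injective p →
      (∀ i, A (p i) = Units.map (f : QOpen W Φ Ψ →* L) (qz W Φ Ψ i)) →
        symb A ∈ unitPart v N) ∨
    ((∀ i, v ((Units.map (f : QOpen W Φ Ψ →* L) (qz W Φ Ψ i) : Lˣ) : L) = 1) ∧
      v (f (qx W Φ Ψ Φ)) = 1) := by
  set z : Fin (s + 1) → Lˣ := fun i => Units.map (f : QOpen W Φ Ψ →* L) (qz W Φ Ψ i) with hz
  have heqn : lev (f.comp (qcst W Φ Ψ)) z W = f (qx W Φ Ψ Φ) := qlau_eq W Φ Ψ f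
  by_cases hsmall : ∃ m0, W.coeff m0 ≠ 0 ∧ v (f (qx W Φ Ψ Φ)) < v ((mon z m0 : Lˣ) : L)
  · obtain ⟨m0, hm0, hlt⟩ := hsmall
    refine Or.inl fun N A p hp hA => ?_
    have hzA : (fun j => A (p j)) = z := funext hA
    refine mem_unitPart_of_tame (f.comp (qcst W Φ Ψ)) v A hp hWt hm0 ?_
    rw [hzA, heqn]
    exact hlt
  · push Not at hsmall
    refine Or.inr ?_
    -- all `z_i` are units
    choose k hk using fun j => exists_ord v (z j)
    have hvm : ∀ m : Fin (s + 1) → ℤ, v ((mon z m : Lˣ) : L) =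
        WithZero.exp (∑ j, k j * m j) := by
      intro m
      unfold mon
      rw [Units.coe_prod, map_prod]
      have h2 : ∀ t : Finset (Fin (s + 1)), ∏ j ∈ t, v ((z j ^ m j : Lˣ) : L) =
          WithZero.exp (∑ j ∈ t, k j * m j) := by
        intro t
        induction t using Finset.induction_on with
        | empty => simp
        | insert j t hj ih =>
          rw [Finset.prod_insert hj, Finset.sum_insert hj, WithZero.exp_add, ih,
            Units.val_zpow_eq_zpow_val, map_zpow₀, hk, ← WithZero.exp_zsmul, smul_eq_mul,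
            mul_comm (m j)]
      exact h2 Finset.univ
    have hk0 : k = 0 := by
      by_contra hne
      obtain ⟨m0, hm0, hpos⟩ := hWint k hne
      have h1 := (hsmall m0 hm0).trans hP1
      rw [hvm, ← WithZero.exp_zero, WithZero.exp_le_exp] at h1
      omega
    have hz1 : ∀ i, v (z i : L) = 1 := by
      intro i
      rw [hk i, hk0, Pi.zero_apply, WithZero.exp_zero]
    obtain ⟨m0, hm0, -⟩ := hWint (fun _ => 1) (fun h => by
      have := congrFun h 0
      simp at this)
    have hP2 : v (f (qx W Φ Ψ Φ)) = 1 := by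
      refine le_antisymm hP1 ?_
      have h1 := hsmall m0 hm0
      rw [hvm, hk0] at h1
      simpa using h1
    exact ⟨hz1, hP2⟩

end gen

end Pool.Agent.U374.Tr
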